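import Mathlib

/-! Project AR (helper52), hard anchor MP_0ec205_nt: almost every linear relation between ordinates
of zeros of zeta is almost never satisfied.  Definitions and exact statements. -/

set_option autoImplicit false

open Finset MeasureTheory

namespace Pool.Agent.L7h52.AR

/-- exponential sum over a finite set (definitionally `Pool.Agent.TH801.LR.Sx`) -/
noncomputable def G (Γ : Finset ℝ) (v : ℝ) : ℂ :=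
  ∑ x ∈ Γ, Complex.exp (Complex.I * ((v * x : ℝ) : ℂ))

/-- the properties of the set of ordinates which are used; `ℓ = log T` in the application -/
structure Dat (Γ : Finset ℝ) (T ℓ C : ℝ) : Prop where
  hC : 1 ≤ C
  hT : 1 ≤ T
  hl : 1 ≤ ℓ
  pos : ∀ x ∈ Γ, 0 < x ∧ x ≤ T
  up : (Γ.card : ℝ) ≤ C * (T * ℓ)
  low : T * ℓ ≤ C * Γ.card
  pairs : ∑ x ∈ Γ, ∑ y ∈ Γ, 1 / (1 + (ℓ * (x - y)) ^ 2) ≤ C * (T * ℓ)
  loc : ∀ a h : ℝ, 0 ≤ h → ((Γ.filter (fun x => a ≤ x ∧ x ≤ a + h)).card : ℝ) ≤ C * (h + 1) * ℓ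

/-- number of tuples of `Γ ^ m` at which the linear form is within `w` of `y` -/
noncomputable def cnt (Γ : Finset ℝ) {m : ℕ} (r : Fin m → ℝ) (y w : ℝ) : ℝ :=
  (((Fintype.piFinset (fun _ : Fin m => Γ)).filter
    (fun x : Fin m → ℝ => |∑ i, r i * x i - y| ≤ w)).card : ℝ)

/-- the linear form is within `κ ε |r i| / ℓ` (for all `i`) of some `y` at more than the proportion
`ε / #Γ` of all tuples -/
def Oft (Γ : Finset ℝ) (ℓ κ ε : ℝ) {m : ℕ} (r : Fin m → ℝ) : Prop :=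
  ∃ y : ℝ, ε * (Γ.card : ℝ) ^ (m - 1) < (((Fintype.piFinset (fun _ : Fin m => Γ)).filter
    (fun x : Fin m → ℝ => ∀ i, |∑ j, r j * x j - y| * ℓ ≤ κ * ε * |r i|)).card : ℝ)

/-- two directions are separated by `1 / (T ℓ)` -/
def Sep (N : ℝ) (r r' : Fin 3 → ℝ) : Prop :=
  ∃ i j : Fin 3, ∀ k l : Fin 3, |r k| * |r' l| ≤ N * |r i * r' j - r j * r' i|

/-- CNT: Fourier bound for the number of near solutions (any number of variables). -/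
def S_CNT : Prop := ∀ (Γ : Finset ℝ) (m : ℕ) (r : Fin m → ℝ) (y E : ℝ), 0 < E →
  cnt Γ r y (1 / (2 * Real.pi * E)) * E ≤
    2 * ∫ u in (-E)..E, ∏ i, ‖G Γ (2 * Real.pi * r i * u)‖

/-- TWO: two variables. -/
def S_TWO : Prop := ∀ (Γ : Finset ℝ) (T ℓ C : ℝ), Dat Γ T ℓ C → ∀ (α β b y : ℝ), 0 < b →
  b ≤ |α| → b ≤ |β| →
  (((Γ ×ˢ Γ).filter (fun x : ℝ × ℝ => |α * x.1 + β * x.2 - y| ≤ b / ℓ)).card : ℝ) ≤
    88 * C * (T * ℓ)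

/-- BIG: if a relation is often satisfied, there is a frequency with three large sums. -/
def S_BIG : Prop := ∀ (Γ : Finset ℝ) (T ℓ C : ℝ), Dat Γ T ℓ C → ∀ (r : Fin 3 → ℝ) (b A e y : ℝ),
  0 < b → (∀ k, b ≤ |r k|) → 1 ≤ A → 0 < e →
  (88 * C ^ 2 / A + 132 * C * e) * (T * ℓ) ^ 2 < cnt Γ r y (b / (A * ℓ)) →
  ∃ u : ℝ, ℓ / b ≤ u ∧ u ≤ A * ℓ / b ∧ ∀ k, e * (T * ℓ) < ‖G Γ (|r k| * u)‖

/-- CEL: few cells contain a large value of the exponential sum. -/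
def S_CEL : Prop := ∀ (Γ : Finset ℝ) (T ℓ C : ℝ), Dat Γ T ℓ C → ∀ (e ρ : ℝ) (K : ℕ),
  0 < e → 0 < ρ → 2 * C * T * ρ ≤ e → ℓ ≤ K * ρ →
  (Set.ncard {k : ℕ | k < K ∧ ∃ v : ℝ, k * ρ ≤ v ∧ v ≤ (k + 1) * ρ ∧ e * (T * ℓ) < ‖G Γ v‖} : ℝ) ≤
    176 * C * K / (e ^ 2 * (T * ℓ))

/-- TRV: relations with a coefficient much smaller than another one.
Proof: let `c` be the third index and `D` the set of `x ∈ Γ` with more than `K` elements of `Γ` within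
`1 / ℓ` of `x`; `pairs` gives `K #D ≤ 2 C T ℓ`.  Triples with `x d ∈ D`: at most `#D` times the bound
of S_TWO.  Triples with `x d ∉ D`: `C T ℓ` choices for `x c`, then `x a` lies in an interval of
length `2 (ε₁ T + w / |r a|)` (as `|r d * x d| ≤ ε₁ |r a| T`), then at most `K` choices for `x d`,
since all the possible `x d` are within `2 w / |r d| ≤ 1 / ℓ` of each other. -/
def S_TRV : Prop := ∀ (Γ : Finset ℝ) (T ℓ C : ℝ), Dat Γ T ℓ C → ∀ (r : Fin 3 → ℝ)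
  (b ε₁ K w y : ℝ) (a d : Fin 3), a ≠ d → 0 < b → (∀ k, b ≤ |r k|) → 0 < ε₁ →
  |r d| ≤ ε₁ * |r a| → 1 ≤ ε₁ * T → 1 ≤ K → 0 ≤ w → 2 * w * ℓ ≤ b →
  cnt Γ r y w ≤ (176 * C ^ 2 / K + 10 * C ^ 2 * K * ε₁) * (T * ℓ) ^ 2

/-- MAS: few separated directions are often satisfied. -/
def S_MAS : Prop := ∀ C : ℝ, 1 ≤ C → ∃ κ R : ℝ, 0 < κ ∧ κ ≤ 1 ∧ 1 ≤ R ∧ ∀ (Γ : Finset ℝ) (T ℓ : ℝ),
  Dat Γ T ℓ C → ∀ ε : ℝ, 0 < ε → ε ≤ 1 → R ≤ ε ^ 2 * T → ∀ 𝓡 : Finset (Fin 3 → ℝ),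
    (∀ r ∈ 𝓡, ∀ i, r i ≠ 0) → (∀ r ∈ 𝓡, ∀ r' ∈ 𝓡, r ≠ r' → Sep (T * ℓ) r r') →
    (∀ r ∈ 𝓡, Oft Γ ℓ κ ε r) → (𝓡.card : ℝ) ≤ R / ε ^ 18

/-- PRJ: fixing the other variables, every three coefficients of a relation which is often
satisfied form a relation which is often satisfied; we normalise the first one to `1`. -/
def S_PRJ : Prop := ∀ (Γ : Finset ℝ) (ℓ κ ε : ℝ) (m : ℕ) (r : Fin (m + 3) → ℝ), 0 < ε → 0 < κ →
  0 < ℓ → (∀ i, r i ≠ 0) → Oft Γ ℓ κ ε r → ∀ j : Fin (m + 3), j ≠ 0 → j ≠ 1 →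
  Oft Γ ℓ κ ε ![1, r 1 / r 0, r j / r 0]

/-- LZ: integer relations of any length. `Ob` is the property `Oft Γ ℓ κ ε`, `M = R / ε ^ 18`.
Proof: `Q` = the finite set of all `(r 1 / r 0, r j / r 0)`, `r ∈ F`, `j ≥ 2`; the vectors
`![1, a, b]` with `(a, b) ∈ Q` are pairwise separated, because a nonzero 2 x 2 minor of two integer
vectors is at least `1` in modulus; so `#Q ≤ M`.  The map `r ↦ (sign of r 0, (r 1 / r 0, r j / r 0)_j)`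
is injective on primitive vectors. -/
def S_LZ : Prop := ∀ (Ob : (Fin 3 → ℝ) → Prop) (N M : ℝ), 1 ≤ N →
  (∀ 𝓡 : Finset (Fin 3 → ℝ), (∀ r ∈ 𝓡, ∀ i, r i ≠ 0) →
    (∀ r ∈ 𝓡, ∀ r' ∈ 𝓡, r ≠ r' → Sep N r r') → (∀ r ∈ 𝓡, Ob r) → (𝓡.card : ℝ) ≤ M) →
  ∀ (m : ℕ) (F : Finset (Fin (m + 3) → ℤ)), (∀ r ∈ F, ∀ i, r i ≠ 0 ∧ (r i : ℝ) ^ 2 ≤ N) →
    (∀ r ∈ F, Finset.univ.gcd r = 1) →
    (∀ r ∈ F, ∀ j : Fin (m + 3), j ≠ 0 → j ≠ 1 →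
      Ob ![1, (r 1 : ℝ) / r 0, (r j : ℝ) / r 0]) → (F.card : ℝ) ≤ 2 * M ^ (m + 1)

/-- LR: real relations of any length, along a sequence of scales (`N k → ∞`). `Ob k` is the property
`Oft` at the scale `k`.
Proof: `Q` = the finite set of all `(r 1 / r 0, r j / r 0)`; as the vectors `![1, a, b]`, `(a, b) ∈ Q`,
are pairwise not proportional, they are pairwise separated for large `N k`; hence for large `k` at
most `M` of them have `Ob k` and at most `M ^ (m + 1)` of the `r ∈ F` are counted at `k`.  Sum over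
`k < n` and let `n → ∞`. -/
def S_LR : Prop := ∀ (m : ℕ) (F : Finset (Fin (m + 3) → ℝ)) (Ob : ℕ → (Fin 3 → ℝ) → Prop)
  (Of : ℕ → (Fin (m + 3) → ℝ) → Prop) (N : ℕ → ℝ) (M δ : ℝ), 0 ≤ M → 0 < δ →
  Filter.Tendsto N Filter.atTop Filter.atTop →
  (∀ᶠ k in Filter.atTop, ∀ 𝓡 : Finset (Fin 3 → ℝ), (∀ r ∈ 𝓡, ∀ i, r i ≠ 0) →
    (∀ r ∈ 𝓡, ∀ r' ∈ 𝓡, r ≠ r' → Sep (N k) r r') → (∀ r ∈ 𝓡, Ob k r) → (𝓡.card : ℝ) ≤ M) →
  (∀ r ∈ F, ∀ i, r i ≠ 0) → (∀ r ∈ F, ∀ r' ∈ F, r ≠ r' → ¬ ∃ c : ℝ, r' = c • r) →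
  (∀ r ∈ F, ∀ k, Of k r → ∀ j : Fin (m + 3), j ≠ 0 → j ≠ 1 →
    Ob k ![1, r 1 / r 0, r j / r 0]) →
  (∀ r ∈ F, ∀ᶠ n : ℕ in Filter.atTop, δ * n ≤ (Set.ncard {k : ℕ | k < n ∧ Of k r} : ℝ)) →
  δ * F.card ≤ M ^ (m + 1)

end Pool.Agent.L7h52.AR
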