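import Pool.Agent.TH801.LR.Cnt
import Pool.Agent.L7h52.AR.Stm

/-! Project AR: the Fourier part. -/

set_option autoImplicit false

open Finset MeasureTheory Complex

namespace Pool.Agent.L7h52.AR

open H177.Lat (tri tri_nonneg tri_zero tri_in tri_integrable KK KK_nonneg KK_le KK_sq)
open Pool.Agent.TH801.LR (Sx Sx_le Sx_sq Sx_cont l2 prod_Sx KK_near ar3)

lemma G_eq (Γ : Finset ℝ) : G Γ = Sx Γ := rfl

lemma G_le (Γ : Finset ℝ) (v : ℝ) : ‖G Γ v‖ ≤ Γ.card := Sx_le Γ v

lemma G_cont (Γ : Finset ℝ) : Continuous (G Γ) := Sx_cont Γ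

/-- the sum over all tuples -/
lemma tup (Γ : Finset ℝ) {m : ℕ} (r : Fin m → ℝ) (y u : ℝ) :
    ∑ x ∈ Fintype.piFinset (fun _ : Fin m => Γ), Real.cos (2 * Real.pi * u * (∑ i, r i * x i - y)) ≤
      ∏ i, ‖G Γ (2 * Real.pi * r i * u)‖ := by
  have e2 : ∑ x ∈ Fintype.piFinset (fun _ : Fin m => Γ),
      Real.cos (2 * Real.pi * u * (∑ i, r i * x i - y)) =
      (cexp (((-(2 * Real.pi * u * y) : ℝ) : ℂ) * I) *
        ∏ i, G Γ (2 * Real.pi * r i * u)).re := by
    have h0 : ∏ i, G Γ (2 * Real.pi * r i * u) =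
        ∑ x ∈ Fintype.piFinset (fun _ : Fin m => Γ),
          cexp (I * ((∑ i, (2 * Real.pi * r i * u) * x i : ℝ) : ℂ)) :=
      prod_Sx (fun _ : Fin m => Γ) (fun i => 2 * Real.pi * r i * u)
    rw [h0, mul_sum, Complex.re_sum]
    refine sum_congr rfl fun x _ => ?_
    rw [← Complex.exp_add]
    have e4 : 2 * Real.pi * u * (∑ i, r i * x i - y) = -(2 * Real.pi * u * y) +
        ∑ i, (2 * Real.pi * r i * u) * x i := by
      rw [mul_sub, mul_sum]
      have : ∑ i, 2 * Real.pi * u * (r i * x i) = ∑ i, (2 * Real.pi * r i * u) * x i :=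
        sum_congr rfl fun i _ => by ring
      rw [this]; ring
    rw [e4, ← Complex.exp_ofReal_mul_I_re]
    congr 2
    push_cast; ring
  rw [e2]
  refine (Complex.re_le_norm _).trans ?_
  rw [norm_mul, Complex.norm_exp_ofReal_mul_I, one_mul, norm_prod]

theorem s_cnt : S_CNT := by
  intro Γ m r y E hE
  have hpi0 := Real.pi_pos
  set z : (Fin m → ℝ) → ℝ := fun x => ∑ i, r i * x i - y with hz
  set F : ℝ → ℝ := fun u => ∏ i, ‖G Γ (2 * Real.pi * r i * u)‖ with hF
  have hFc : Continuous F := by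
    simp only [hF]
    refine continuous_finsetProd _ fun i _ => ?_
    have := G_cont Γ
    fun_prop
  have hF0 : ∀ u, 0 ≤ F u := fun u => by
    simp only [hF]; exact prod_nonneg fun _ _ => norm_nonneg _
  have hti : ∀ x : ℝ, Integrable (fun v => tri E v * Real.cos (2 * Real.pi * v * x)) :=
    fun x => tri_integrable hE (by fun_prop)
  have hind : Integrable ((Set.Icc (-E) E).indicator F) := by
    rw [integrable_indicator_iff measurableSet_Icc]
    exact hFc.integrableOn_Icc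
  have hindint : ∫ u, (Set.Icc (-E) E).indicator F u = ∫ u in (-E)..E, F u := by
    rw [integral_indicator measurableSet_Icc, integral_Icc_eq_integral_Ioc,
      ← intervalIntegral.integral_of_le (by linarith)]
  have hsum : ∑ x ∈ Fintype.piFinset (fun _ : Fin m => Γ), KK E (z x) ≤ ∫ u in (-E)..E, F u := by
    rw [← hindint]
    have e1 : ∑ x ∈ Fintype.piFinset (fun _ : Fin m => Γ), KK E (z x) =
        ∫ u, ∑ x ∈ Fintype.piFinset (fun _ : Fin m => Γ),
          tri E u * Real.cos (2 * Real.pi * u * z x) := by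
      rw [integral_finsetSum _ fun x _ => hti _]
      rfl
    rw [e1]
    refine integral_mono (integrable_finsetSum _ fun x _ => hti _) hind ?_
    intro u
    show ∑ x ∈ Fintype.piFinset (fun _ : Fin m => Γ),
      tri E u * Real.cos (2 * Real.pi * u * z x) ≤ (Set.Icc (-E) E).indicator F u
    rw [← mul_sum]
    rcases le_or_gt (|u|) E with hu | hu
    · have htr1 : tri E u ≤ 1 := by
        unfold tri
        apply max_le (by norm_num)
        have : 0 ≤ |u| / E := by positivity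
        linarith
      rw [Set.indicator_of_mem (Set.mem_Icc.2 (abs_le.1 hu))]
      exact ar3 _ _ _ (tri_nonneg E u) htr1 (tup Γ r y u) (hF0 u)
    · rw [tri_zero hE hu.le, zero_mul]
      exact Set.indicator_nonneg (fun u _ => hF0 u) u
  have hlow : cnt Γ r y (1 / (2 * Real.pi * E)) * (E / 2) ≤
      ∑ x ∈ Fintype.piFinset (fun _ : Fin m => Γ), KK E (z x) := by
    unfold cnt
    rw [← nsmul_eq_mul, ← sum_const]
    refine le_trans (sum_le_sum fun x hx => ?_)
      (sum_le_sum_of_subset_of_nonneg (filter_subset _ _) fun x _ _ => KK_nonneg hE _)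
    rw [mem_filter] at hx
    apply KK_near hE
    have h1 : |z x| ≤ 1 / (2 * Real.pi * E) := hx.2
    rw [le_div_iff₀ (by positivity)] at h1
    linarith
  have := hlow.trans hsum
  linarith

/-- the mean square -/
lemma msq {Γ : Finset ℝ} {T ℓ C : ℝ} (h : Dat Γ T ℓ C) (c e : ℝ) (he : 0 < e)
    (hce : ℓ ≤ 2 * Real.pi * |c| * e) :
    ∫ u in (-e)..e, ‖G Γ (2 * Real.pi * c * u)‖ ^ 2 ≤ 44 * e * (C * (T * ℓ)) :=
  l2 Γ (T * ℓ) C ℓ (by linarith [h.hl]) h.pairs Γ (Subset.refl _) c e he hce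

lemma ii_sq (Γ : Finset ℝ) (c a b : ℝ) :
    IntervalIntegrable (fun u : ℝ => ‖G Γ (2 * Real.pi * c * u)‖ ^ 2) volume a b := by
  have := G_cont Γ
  exact Continuous.intervalIntegrable (by fun_prop) _ _

theorem s_two : S_TWO := by
  intro Γ T ℓ C h α β b y hb hα hβ
  have hpi0 := Real.pi_pos
  have hl0 : 0 < ℓ := by linarith [h.hl]
  set r : Fin 2 → ℝ := ![α, β] with hr
  set E : ℝ := ℓ / (2 * Real.pi * b) with hE
  have hE0 : 0 < E := by positivity
  have hw : 1 / (2 * Real.pi * E) = b / ℓ := by rw [hE]; field_simp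
  have h1 := s_cnt Γ 2 r y E hE0
  rw [hw] at h1
  have h2 : (((Γ ×ˢ Γ).filter (fun x : ℝ × ℝ => |α * x.1 + β * x.2 - y| ≤ b / ℓ)).card : ℝ) ≤
      cnt Γ r y (b / ℓ) := by
    unfold cnt
    norm_cast
    refine card_le_card_of_injOn (fun x => ![x.1, x.2]) ?_ ?_
    · intro x hx
      have hx' := mem_filter.1 (mem_coe.1 hx)
      have hx1 := mem_product.1 hx'.1
      refine mem_coe.2 (mem_filter.2 ⟨?_, ?_⟩)
      · rw [Fintype.mem_piFinset]
        intro i
        fin_cases i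
        · exact hx1.1
        · exact hx1.2
      · rw [Fin.sum_univ_two]
        exact hx'.2
    · intro x _ x' _ hxx
      have h3 := congrFun hxx 0
      have h4 := congrFun hxx 1
      exact Prod.ext h3 h4
  have hce : ∀ c : ℝ, b ≤ |c| → ℓ ≤ 2 * Real.pi * |c| * E := by
    intro c hc
    have : 2 * Real.pi * b * E = ℓ := by rw [hE]; field_simp
    calc ℓ = 2 * Real.pi * b * E := this.symm
      _ ≤ 2 * Real.pi * |c| * E := by gcongr
  have h3 : ∫ u in (-E)..E, ∏ i, ‖G Γ (2 * Real.pi * r i * u)‖ ≤ 44 * E * (C * (T * ℓ)) := by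
    have h4 := msq h α E hE0 (hce α hα)
    have h5 := msq h β E hE0 (hce β hβ)
    have h6 : ∫ u in (-E)..E, ∏ i, ‖G Γ (2 * Real.pi * r i * u)‖ ≤
        ∫ u in (-E)..E, (‖G Γ (2 * Real.pi * α * u)‖ ^ 2 / 2 + ‖G Γ (2 * Real.pi * β * u)‖ ^ 2 / 2) := by
      apply intervalIntegral.integral_mono_on (by linarith)
      · have := G_cont Γ
        exact Continuous.intervalIntegrable
          (continuous_finsetProd _ fun i _ => by fun_prop) _ _
      · exact ((ii_sq Γ α _ _).div_const 2).add ((ii_sq Γ β _ _).div_const 2)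
      · intro u _
        rw [Fin.prod_univ_two]
        show ‖G Γ (2 * Real.pi * α * u)‖ * ‖G Γ (2 * Real.pi * β * u)‖ ≤ _
        nlinarith [sq_nonneg (‖G Γ (2 * Real.pi * α * u)‖ - ‖G Γ (2 * Real.pi * β * u)‖)]
    rw [intervalIntegral.integral_add ((ii_sq Γ α _ _).div_const 2) ((ii_sq Γ β _ _).div_const 2),
      intervalIntegral.integral_div, intervalIntegral.integral_div] at h6
    linarith
  have h4 : cnt Γ r y (b / ℓ) * E ≤ 88 * C * (T * ℓ) * E := by nlinarith
  exact h2.trans (le_of_mul_le_mul_right h4 hE0)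

lemma G_neg (Γ : Finset ℝ) (v : ℝ) : ‖G Γ (-v)‖ = ‖G Γ v‖ := by
  have h : G Γ (-v) = (starRingEnd ℂ) (G Γ v) := by
    unfold G
    rw [map_sum]
    refine sum_congr rfl fun x _ => ?_
    rw [← Complex.exp_conj, map_mul, Complex.conj_I, Complex.conj_ofReal]
    congr 1
    push_cast; ring
  rw [h, RCLike.norm_conj]

lemma G_abs (Γ : Finset ℝ) (v : ℝ) : ‖G Γ |v|‖ = ‖G Γ v‖ := by
  rcases abs_choice v with h | h
  · rw [h]
  · rw [h, G_neg]

/-- pointwise bound of a product of three numbers -/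
lemma three (n t a b c : ℝ) (ha : 0 ≤ a) (hb : 0 ≤ b) (hc : 0 ≤ c) (_hn : 0 ≤ n) (ht : 0 ≤ t)
    (hcn : c ≤ n) (I : Prop) (hI : ¬ I → a ≤ t ∨ b ≤ t ∨ c ≤ t) :
    a * b * c ≤ n / 2 * (Set.indicator {_x : Unit | I} (fun _ => a ^ 2 + b ^ 2) ()) +
      t / 2 * (a ^ 2 + b ^ 2 + c ^ 2) := by
  by_cases h : I
  · rw [Set.indicator_of_mem (by exact h)]
    have h1 : a * b ≤ (a ^ 2 + b ^ 2) / 2 := by nlinarith [sq_nonneg (a - b)]
    have h2 : a * b * c ≤ (a ^ 2 + b ^ 2) / 2 * n := mul_le_mul h1 hcn hc (by positivity)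
    have h3 : 0 ≤ t / 2 * (a ^ 2 + b ^ 2 + c ^ 2) := by positivity
    linarith
  · rw [Set.indicator_of_notMem (by exact h)]
    have h0 : ∀ x y z : ℝ, 0 ≤ x → 0 ≤ y → 0 ≤ z → x ≤ t →
        x * y * z ≤ t / 2 * (x ^ 2 + y ^ 2 + z ^ 2) := by
      intro x y z hx hy hz hxt
      have h1 : y * z ≤ (y ^ 2 + z ^ 2) / 2 := by nlinarith [sq_nonneg (y - z)]
      have h2 : x * (y * z) ≤ t * ((y ^ 2 + z ^ 2) / 2) := mul_le_mul hxt h1 (by positivity) ht
      have h3 : 0 ≤ t / 2 * x ^ 2 := by positivity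
      calc x * y * z = x * (y * z) := by ring
        _ ≤ t * ((y ^ 2 + z ^ 2) / 2) := h2
        _ ≤ t / 2 * (x ^ 2 + y ^ 2 + z ^ 2) := by linarith
    rw [mul_zero, zero_add]
    rcases hI h with h1 | h1 | h1
    · exact h0 a b c ha hb hc h1
    · have := h0 b a c hb ha hc h1
      calc a * b * c = b * a * c := by ring
        _ ≤ _ := this
        _ = _ := by ring
    · have := h0 c a b hc ha hb h1
      calc a * b * c = c * a * b := by ring
        _ ≤ _ := this
        _ = _ := by ring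

theorem s_big : S_BIG := by
  intro Γ T ℓ C h r b A e y hb hr hA he hX
  have hpi0 := Real.pi_pos
  have hl0 : 0 < ℓ := by linarith [h.hl]
  have hT0 : 0 < T := by linarith [h.hT]
  have hC0 : 0 < C := by linarith [h.hC]
  have hA0 : 0 < A := by linarith
  set N : ℝ := T * ℓ with hN
  have hN0 : 0 < N := by positivity
  set E0 : ℝ := ℓ / (2 * Real.pi * b) with hE0d
  have hE00 : 0 < E0 := by positivity
  set E : ℝ := A * E0 with hEd
  have hE0 : 0 < E := by positivity
  have hE0E : E0 ≤ E := by rw [hEd]; nlinarith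
  have hw : 1 / (2 * Real.pi * E) = b / (A * ℓ) := by rw [hEd, hE0d]; field_simp
  have h1 := s_cnt Γ 3 r y E hE0
  rw [hw] at h1
  by_contra hcon
  push Not at hcon
  have hce : ∀ (k : Fin 3) (x : ℝ), E0 ≤ x → ℓ ≤ 2 * Real.pi * |r k| * x := by
    intro k x hx
    have h0 : 2 * Real.pi * b * E0 = ℓ := by rw [hE0d]; field_simp
    calc ℓ = 2 * Real.pi * b * E0 := h0.symm
      _ ≤ 2 * Real.pi * |r k| * x := by have := hr k; gcongr
  set g : Fin 3 → ℝ → ℝ := fun k u => ‖G Γ (2 * Real.pi * r k * u)‖ with hg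
  have hgc : ∀ k, Continuous (g k) := fun k => by
    have := G_cont Γ
    simp only [hg]; fun_prop
  -- pointwise
  have hpt : ∀ u : ℝ, |u| ≤ E → ∏ i, g i u ≤
      (Γ.card : ℝ) / 2 * ((Set.Icc (-E0) E0).indicator (fun u => g 0 u ^ 2 + g 1 u ^ 2) u) +
        e * N / 2 * (g 0 u ^ 2 + g 1 u ^ 2 + g 2 u ^ 2) := by
    intro u hu
    rw [Fin.prod_univ_three]
    have h3 := three (Γ.card : ℝ) (e * N) (g 0 u) (g 1 u) (g 2 u) (norm_nonneg _) (norm_nonneg _)
      (norm_nonneg _) (Nat.cast_nonneg _) (by positivity) (G_le Γ _) (u ∈ Set.Icc (-E0) E0) ?_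
    · refine h3.trans (le_of_eq ?_)
      congr 2
    · intro hu0
      have hu1 : E0 < |u| := by
        by_contra h4
        exact hu0 (Set.mem_Icc.2 (abs_le.1 (not_lt.1 h4)))
      obtain ⟨k, hk⟩ := hcon (2 * Real.pi * |u|) (by
          rw [hE0d] at hu1
          have : ℓ / b = 2 * Real.pi * (ℓ / (2 * Real.pi * b)) := by field_simp
          rw [this]
          gcongr) (by
          rw [hEd, hE0d] at hu
          have : A * ℓ / b = 2 * Real.pi * (A * (ℓ / (2 * Real.pi * b))) := by field_simp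
          rw [this]
          gcongr)
      have h5 : ‖G Γ (|r k| * (2 * Real.pi * |u|))‖ = g k u := by
        have : |r k| * (2 * Real.pi * |u|) = |2 * Real.pi * r k * u| := by
          rw [abs_mul, abs_mul, abs_of_pos (show (0 : ℝ) < 2 * Real.pi by positivity)]
          ring
        rw [this, G_abs]
      rw [h5] at hk
      fin_cases k
      · left; exact hk
      · right; left; exact hk
      · right; right; exact hk
  have hsqc : ∀ k, Continuous (fun u => g k u ^ 2) := fun k => (hgc k).pow 2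
  have hm : ∀ (k : Fin 3) (x : ℝ), E0 ≤ x → ∫ u in (-x)..x, g k u ^ 2 ≤ 44 * x * (C * N) :=
    fun k x hx => msq h (r k) x (hE00.trans_le hx) (hce k x hx)
  have c01 : Continuous (fun u => g 0 u ^ 2 + g 1 u ^ 2) := (hsqc 0).add (hsqc 1)
  have c012 : Continuous (fun u => g 0 u ^ 2 + g 1 u ^ 2 + g 2 u ^ 2) := c01.add (hsqc 2)
  have hint : ∫ u in (-E)..E, ∏ i, g i u ≤
      (Γ.card : ℝ) / 2 * (88 * E0 * (C * N)) + e * N / 2 * (132 * E * (C * N)) := by
    have hi1 : IntervalIntegrable ((Set.Icc (-E0) E0).indicator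
        (fun u => g 0 u ^ 2 + g 1 u ^ 2)) volume (-E) E := by
      have : Integrable ((Set.Icc (-E0) E0).indicator (fun u => g 0 u ^ 2 + g 1 u ^ 2)) := by
        rw [integrable_indicator_iff measurableSet_Icc]
        exact c01.integrableOn_Icc
      exact this.intervalIntegrable
    have hi2 := c012.intervalIntegrable (μ := volume) (-E) E
    have h6 : ∫ u in (-E)..E, ∏ i, g i u ≤ ∫ u in (-E)..E, ((Γ.card : ℝ) / 2 *
        ((Set.Icc (-E0) E0).indicator (fun u => g 0 u ^ 2 + g 1 u ^ 2) u) +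
        e * N / 2 * (g 0 u ^ 2 + g 1 u ^ 2 + g 2 u ^ 2)) := by
      apply intervalIntegral.integral_mono_on (by linarith)
      · exact Continuous.intervalIntegrable (continuous_finsetProd _ fun i _ => hgc i) _ _
      · exact (hi1.const_mul _).add (hi2.const_mul _)
      · intro u hu
        exact hpt u (abs_le.2 hu)
    have h7 : ∫ u in (-E)..E, (Set.Icc (-E0) E0).indicator (fun u => g 0 u ^ 2 + g 1 u ^ 2) u =
        ∫ u in (-E0)..E0, (g 0 u ^ 2 + g 1 u ^ 2) := by
      rw [intervalIntegral.integral_of_le (by linarith), intervalIntegral.integral_of_le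
        (by linarith), ← integral_Icc_eq_integral_Ioc, ← integral_Icc_eq_integral_Ioc,
        setIntegral_indicator measurableSet_Icc]
      congr 2
      exact Set.inter_eq_self_of_subset_right (Set.Icc_subset_Icc (by linarith) hE0E)
    have h8 : ∫ u in (-E0)..E0, (g 0 u ^ 2 + g 1 u ^ 2) ≤ 88 * E0 * (C * N) := by
      rw [intervalIntegral.integral_add ((hsqc 0).intervalIntegrable _ _)
        ((hsqc 1).intervalIntegrable _ _)]
      linarith [hm 0 E0 le_rfl, hm 1 E0 le_rfl]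
    have h9 : ∫ u in (-E)..E, (g 0 u ^ 2 + g 1 u ^ 2 + g 2 u ^ 2) ≤ 132 * E * (C * N) := by
      rw [intervalIntegral.integral_add (c01.intervalIntegrable _ _)
        ((hsqc 2).intervalIntegrable _ _), intervalIntegral.integral_add
        ((hsqc 0).intervalIntegrable _ _) ((hsqc 1).intervalIntegrable _ _)]
      linarith [hm 0 E hE0E, hm 1 E hE0E, hm 2 E hE0E]
    refine h6.trans ?_
    rw [intervalIntegral.integral_add (hi1.const_mul _) (hi2.const_mul _),
      intervalIntegral.integral_const_mul, intervalIntegral.integral_const_mul, h7]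
    gcongr
  have hn := h.up
  have h10 : (Γ.card : ℝ) / 2 * (88 * E0 * (C * N)) ≤ C * N / 2 * (88 * E0 * (C * N)) := by
    gcongr
  have h11 : cnt Γ r y (b / (A * ℓ)) * E ≤ (88 * C ^ 2 / A + 132 * C * e) * N ^ 2 * E := by
    have e1 : (88 * C ^ 2 / A + 132 * C * e) * N ^ 2 * E =
        2 * (C * N / 2 * (88 * E0 * (C * N)) + e * N / 2 * (132 * E * (C * N))) := by
      rw [hEd]; field_simp
    rw [e1]
    have h1' : cnt Γ r y (b / (A * ℓ)) * E ≤ 2 * ∫ u in (-E)..E, ∏ i, g i u := h1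
    linarith
  have h12 := le_of_mul_le_mul_right h11 hE0
  linarith

/-- Lipschitz bound -/
lemma G_lip {Γ : Finset ℝ} {T ℓ C : ℝ} (h : Dat Γ T ℓ C) (v v' : ℝ) :
    ‖G Γ v‖ ≤ ‖G Γ v'‖ + |v - v'| * (C * T * (T * ℓ)) := by
  have h1 : ‖G Γ v - G Γ v'‖ ≤ Γ.card * (|v - v'| * T) := by
    unfold G
    rw [← sum_sub_distrib]
    refine (norm_sum_le _ _).trans ?_
    rw [← nsmul_eq_mul, ← sum_const]
    refine sum_le_sum fun x hx => ?_
    have h2 : cexp (I * ((v * x : ℝ) : ℂ)) - cexp (I * ((v' * x : ℝ) : ℂ)) =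
        cexp (I * ((v' * x : ℝ) : ℂ)) * (cexp (I * (((v - v') * x : ℝ) : ℂ)) - 1) := by
      rw [mul_sub, mul_one, ← Complex.exp_add]
      congr 2
      push_cast; ring
    rw [h2, norm_mul]
    have h3 : ‖cexp (I * ((v' * x : ℝ) : ℂ))‖ = 1 := by
      rw [mul_comm]; exact Complex.norm_exp_ofReal_mul_I _
    rw [h3, one_mul]
    have h4 : ‖cexp (I * (((v - v') * x : ℝ) : ℂ)) - 1‖ ≤ |(v - v') * x| := by
      have := Real.norm_exp_I_mul_ofReal_sub_one_le (x := (v - v') * x)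
      simpa using this
    refine h4.trans ?_
    rw [abs_mul, abs_of_pos (h.pos x hx).1]
    exact mul_le_mul_of_nonneg_left (h.pos x hx).2 (abs_nonneg _)
  have h5 : ‖G Γ v‖ ≤ ‖G Γ v'‖ + ‖G Γ v - G Γ v'‖ := by
    have := norm_add_le (G Γ v') (G Γ v - G Γ v')
    rwa [add_sub_cancel] at this
  have h6 : (Γ.card : ℝ) * (|v - v'| * T) ≤ (C * (T * ℓ)) * (|v - v'| * T) := by
    have hT0 : 0 ≤ T := by linarith [h.hT]
    exact mul_le_mul_of_nonneg_right h.up (by positivity)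
  have h7 : (C * (T * ℓ)) * (|v - v'| * T) = |v - v'| * (C * T * (T * ℓ)) := by ring
  linarith

theorem s_cel : S_CEL := by
  classical
  intro Γ T ℓ C h e ρ K he hρ hρe hK
  have hpi0 := Real.pi_pos
  have hl0 : 0 < ℓ := by linarith [h.hl]
  have hT0 : 0 < T := by linarith [h.hT]
  have hC0 : 0 < C := by linarith [h.hC]
  set N : ℝ := T * ℓ with hN
  have hN0 : 0 < N := by positivity
  set S : Set ℕ := {k : ℕ | k < K ∧ ∃ v : ℝ, k * ρ ≤ v ∧ v ≤ (k + 1) * ρ ∧ e * N < ‖G Γ v‖} with hS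
  have hfin : S.Finite := (Set.finite_lt_nat K).subset fun k hk => hk.1
  set F : Finset ℕ := hfin.toFinset with hF
  have hcard : (S.ncard : ℝ) = F.card := by
    rw [Set.ncard_eq_toFinset_card _ hfin]
  rw [hcard]
  have hc : Continuous (fun v : ℝ => ‖G Γ v‖ ^ 2) := by
    have := G_cont Γ; fun_prop
  -- each cell
  have hcell : ∀ k ∈ F, ρ * (e * N / 2) ^ 2 ≤ ∫ v in ((k : ℝ) * ρ)..((k + 1 : ℕ) : ℝ) * ρ, ‖G Γ v‖ ^ 2 := by
    intro k hk
    rw [hF, Set.Finite.mem_toFinset] at hk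
    obtain ⟨_, v, hv1, hv2, hv3⟩ := hk
    have hk1 : (((k + 1 : ℕ) : ℝ)) = (k : ℝ) + 1 := by push_cast; ring
    rw [hk1]
    have h1 : ∀ x ∈ Set.Icc ((k : ℝ) * ρ) (((k : ℝ) + 1) * ρ), (e * N / 2) ^ 2 ≤ ‖G Γ x‖ ^ 2 := by
      intro x hx
      have h2 := G_lip h v x
      have h3 : |v - x| ≤ ρ := by
        rw [abs_le]
        constructor
        · linarith [hx.2]
        · linarith [hx.1]
      have h4 : |v - x| * (C * T * N) ≤ ρ * (C * T * N) := by gcongr
      have h5 : ρ * (C * T * N) ≤ e * N / 2 := by nlinarith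
      have h6 : e * N / 2 ≤ ‖G Γ x‖ := by linarith
      exact pow_le_pow_left₀ (by positivity) h6 2
    have h7 : ∫ v in ((k : ℝ) * ρ)..(((k : ℝ) + 1) * ρ), (e * N / 2) ^ 2 ≤
        ∫ v in ((k : ℝ) * ρ)..(((k : ℝ) + 1) * ρ), ‖G Γ v‖ ^ 2 := by
      apply intervalIntegral.integral_mono_on (by nlinarith) (by simp)
        (hc.intervalIntegrable _ _)
      intro x hx
      exact h1 x hx
    rw [intervalIntegral.integral_const] at h7
    have h8 : ((k : ℝ) + 1) * ρ - (k : ℝ) * ρ = ρ := by ring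
    rw [h8, smul_eq_mul] at h7
    exact h7
  have hsub : F ⊆ Finset.range K := by
    intro k hk
    rw [hF, Set.Finite.mem_toFinset] at hk
    exact Finset.mem_range.2 hk.1
  have h1 : (F.card : ℝ) * (ρ * (e * N / 2) ^ 2) ≤
      ∑ k ∈ Finset.range K, ∫ v in ((k : ℝ) * ρ)..((k + 1 : ℕ) : ℝ) * ρ, ‖G Γ v‖ ^ 2 := by
    rw [← nsmul_eq_mul, ← sum_const]
    refine (sum_le_sum hcell).trans ?_
    refine sum_le_sum_of_subset_of_nonneg hsub fun k _ _ => ?_
    apply intervalIntegral.integral_nonneg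
    · push_cast; nlinarith
    · intro u _; positivity
  rw [intervalIntegral.sum_integral_adjacent_intervals (a := fun k : ℕ => (k : ℝ) * ρ)
    (fun k _ => hc.intervalIntegrable _ _)] at h1
  have hKρ : 0 < (K : ℝ) * ρ := by linarith
  have h2 : ∫ v in ((0 : ℕ) : ℝ) * ρ..(K : ℝ) * ρ, ‖G Γ v‖ ^ 2 ≤
      ∫ v in (-((K : ℝ) * ρ))..(K : ℝ) * ρ, ‖G Γ v‖ ^ 2 := by
    apply intervalIntegral.integral_mono_interval
    · push_cast; linarith
    · push_cast; linarith
    · exact le_rfl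
    · exact Filter.Eventually.of_forall fun v => by positivity
    · exact hc.intervalIntegrable _ _
  have h3 := msq h (1 / (2 * Real.pi)) ((K : ℝ) * ρ) hKρ (by
    rw [abs_of_pos (by positivity)]
    have : 2 * Real.pi * (1 / (2 * Real.pi)) * ((K : ℝ) * ρ) = K * ρ := by field_simp
    rw [this]; exact hK)
  have h4 : ∫ u in (-((K : ℝ) * ρ))..(K : ℝ) * ρ, ‖G Γ (2 * Real.pi * (1 / (2 * Real.pi)) * u)‖ ^ 2 =
      ∫ v in (-((K : ℝ) * ρ))..(K : ℝ) * ρ, ‖G Γ v‖ ^ 2 := by
    congr 1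
    ext u
    have : 2 * Real.pi * (1 / (2 * Real.pi)) * u = u := by field_simp
    rw [this]
  rw [h4] at h3
  have h5 : (F.card : ℝ) * (ρ * (e * N / 2) ^ 2) ≤ 44 * ((K : ℝ) * ρ) * (C * N) :=
    (h1.trans h2).trans h3
  rw [le_div_iff₀ (by positivity)]
  have h6 : (F.card : ℝ) * (e ^ 2 * N) * (ρ * N / 4) ≤ 176 * C * K * (ρ * N / 4) := by
    calc (F.card : ℝ) * (e ^ 2 * N) * (ρ * N / 4) = (F.card : ℝ) * (ρ * (e * N / 2) ^ 2) := by ring
      _ ≤ 44 * ((K : ℝ) * ρ) * (C * N) := h5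
      _ = 176 * C * K * (ρ * N / 4) := by ring
  exact le_of_mul_le_mul_right h6 (by positivity)

end Pool.Agent.L7h52.AR
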