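import Pool.Agent.L7h52.AR.Stm

/-! Project AR: few separated directions are often satisfied. -/

set_option autoImplicit false

open Finset

namespace Pool.Agent.L7h52.AR

/-- two vectors with the same cells are not separated -/
lemma not_sep {N ρ ℓ u u' : ℝ} {r r' : Fin 3 → ℝ} (hN : 0 < N) (hu : 0 < u) (hu' : 0 < u')
    (hρ : 0 ≤ ρ) (hρN : 2 * ρ * N < ℓ) (hr : ∀ k, r k ≠ 0) (hl : ∀ k, ℓ ≤ |r' k| * u')
    (hw : ∀ k, |u * r k - u' * r' k| ≤ ρ) (hs : Sep N r r') : False := by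
  obtain ⟨i, j, hij⟩ := hs
  obtain ⟨p, hp⟩ : ∃ p : Fin 3, ∀ k, |r k| ≤ |r p| := by
    obtain ⟨p, _, hp⟩ := Finset.exists_max_image (univ : Finset (Fin 3)) (fun k => |r k|) univ_nonempty
    exact ⟨p, fun k => hp k (mem_univ k)⟩
  have hp0 : 0 < |r p| := abs_pos.2 (hr p)
  have h1 := hij p p
  have h2 : |u * r i * (u' * r' j) - u * r j * (u' * r' i)| ≤ ρ * (u * |r i| + u * |r j|) := by
    have e1 : u * r i * (u' * r' j) - u * r j * (u' * r' i) =
        (u * r j) * (u * r i - u' * r' i) - (u * r i) * (u * r j - u' * r' j) := by ring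
    rw [e1]
    refine (abs_sub _ _).trans ?_
    rw [abs_mul, abs_mul, abs_mul, abs_mul, abs_of_pos hu]
    have a1 := mul_le_mul_of_nonneg_left (hw i) (show 0 ≤ u * |r j| by positivity)
    have a2 := mul_le_mul_of_nonneg_left (hw j) (show 0 ≤ u * |r i| by positivity)
    linarith
  have h3 : |u * r i * (u' * r' j) - u * r j * (u' * r' i)| = u * u' * |r i * r' j - r j * r' i| := by
    have : u * r i * (u' * r' j) - u * r j * (u' * r' i) = (u * u') * (r i * r' j - r j * r' i) := by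
      ring
    rw [this, abs_mul, abs_of_pos (by positivity)]
  rw [h3] at h2
  have h4 : ρ * (u * |r i| + u * |r j|) ≤ 2 * ρ * (u * |r p|) := by
    have b1 := mul_le_mul_of_nonneg_left (hp i) hu.le
    have b2 := mul_le_mul_of_nonneg_left (hp j) hu.le
    nlinarith
  have h5 : u * u' * (|r p| * |r' p|) ≤ N * (2 * ρ * (u * |r p|)) := by
    calc u * u' * (|r p| * |r' p|) ≤ u * u' * (N * |r i * r' j - r j * r' i|) := by gcongr
      _ = N * (u * u' * |r i * r' j - r j * r' i|) := by ring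
      _ ≤ N * (2 * ρ * (u * |r p|)) := mul_le_mul_of_nonneg_left (h2.trans h4) hN.le
  have h6 : (|r' p| * u') * (u * |r p|) ≤ (2 * ρ * N) * (u * |r p|) := by linarith
  have h7 := le_of_mul_le_mul_right h6 (by positivity)
  linarith [hl p]

/-- a frequency at which the three sums are large -/
def Freq (Γ : Finset ℝ) (N ℓ V e : ℝ) (r : Fin 3 → ℝ) (u : ℝ) : Prop :=
  0 < u ∧ (∀ k, ℓ ≤ |r k| * u) ∧ (∀ k, |r k| * u ≤ V) ∧ ∀ k, e * N < ‖G Γ (|r k| * u)‖

theorem card_le (cel : S_CEL) {Γ : Finset ℝ} {T ℓ C : ℝ} (h : Dat Γ T ℓ C) {V e : ℝ} (he : 0 < e)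
    (he1 : e < 1) (hV : ℓ ≤ V) (𝓡 : Finset (Fin 3 → ℝ)) (hr : ∀ r ∈ 𝓡, ∀ i, r i ≠ 0)
    (hsep : ∀ r ∈ 𝓡, ∀ r' ∈ 𝓡, r ≠ r' → Sep (T * ℓ) r r')
    (hf : ∀ r ∈ 𝓡, ∃ u, Freq Γ (T * ℓ) ℓ V e r u) :
    (𝓡.card : ℝ) ≤ 8 * (704 * C ^ 2 * V / (ℓ * e ^ 3)) ^ 3 := by
  classical
  have hl1 := h.hl
  have hl0 : 0 < ℓ := by linarith
  have hT1 := h.hT
  have hT0 : 0 < T := by linarith
  have hC1 := h.hC
  have hC0 : 0 < C := by linarith
  have hN0 : 0 < T * ℓ := by positivity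
  obtain ⟨ρ, hρ⟩ : ∃ ρ : ℝ, ρ = e / (2 * C * T) := ⟨_, rfl⟩
  have hρ0 : 0 < ρ := by rw [hρ]; positivity
  have hρe : 2 * C * T * ρ = e := by rw [hρ]; field_simp
  have hρ1 : ρ ≤ 1 := by
    rw [hρ, div_le_one (by positivity)]
    nlinarith
  obtain ⟨K, hK⟩ : ∃ K : ℕ, K = ⌊V / ρ⌋₊ + 1 := ⟨_, rfl⟩
  have hV0 : 0 < V := by linarith
  have hKV : V < K * ρ := by
    rw [hK]; push_cast
    have := Nat.lt_floor_add_one (V / ρ)
    rwa [div_lt_iff₀ hρ0] at this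
  have hK2 : (K : ℝ) * ρ ≤ 2 * V := by
    have h1 : (⌊V / ρ⌋₊ : ℝ) ≤ V / ρ := Nat.floor_le (by positivity)
    have h2 : (K : ℝ) ≤ V / ρ + 1 := by rw [hK]; push_cast; linarith
    calc (K : ℝ) * ρ ≤ (V / ρ + 1) * ρ := by gcongr
      _ = V + ρ := by field_simp
      _ ≤ 2 * V := by linarith
  obtain ⟨S, hS⟩ : ∃ S : Set ℕ, S = {k : ℕ | k < K ∧ ∃ v : ℝ, k * ρ ≤ v ∧ v ≤ (k + 1) * ρ ∧
    e * (T * ℓ) < ‖G Γ v‖} := ⟨_, rfl⟩
  have hcel := cel Γ T ℓ C h e ρ K he hρ0 hρe.le (by linarith)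
  rw [← hS] at hcel
  have hfin : S.Finite := by
    rw [hS]; exact (Set.finite_lt_nat K).subset fun k hk => hk.1
  rw [Set.ncard_eq_toFinset_card _ hfin] at hcel
  obtain ⟨F, hF⟩ : ∃ F : Finset ℕ, F = hfin.toFinset := ⟨_, rfl⟩
  rw [← hF] at hcel
  have hM : (F.card : ℝ) ≤ 704 * C ^ 2 * V / (ℓ * e ^ 3) := by
    refine hcel.trans ?_
    rw [div_le_div_iff₀ (by positivity) (by positivity)]
    have h1 : (K : ℝ) * e ≤ 4 * C * T * V := by
      calc (K : ℝ) * e = (K * ρ) * (2 * C * T) := by rw [← hρe]; ring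
        _ ≤ (2 * V) * (2 * C * T) := by gcongr
        _ = 4 * C * T * V := by ring
    calc 176 * C * K * (ℓ * e ^ 3) = 176 * C * ℓ * e ^ 2 * (K * e) := by ring
      _ ≤ 176 * C * ℓ * e ^ 2 * (4 * C * T * V) := by gcongr
      _ = 704 * C ^ 2 * V * (e ^ 2 * (T * ℓ)) := by ring
  choose! u hu using hf
  obtain ⟨Φ, hΦ⟩ : ∃ Φ : (Fin 3 → ℝ) → (Fin 3 → Bool) × (Fin 3 → ℕ),
    Φ = fun r => (fun k => decide (0 < r k), fun k => ⌊|r k| * u r / ρ⌋₊) := ⟨_, rfl⟩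
  have hcells : ∀ v : ℝ, 0 ≤ v → (⌊v / ρ⌋₊ : ℝ) * ρ ≤ v ∧ v ≤ (⌊v / ρ⌋₊ + 1) * ρ := by
    intro v hv
    constructor
    · have := Nat.floor_le (show 0 ≤ v / ρ by positivity)
      rwa [le_div_iff₀ hρ0] at this
    · have := (Nat.lt_floor_add_one (v / ρ)).le
      rwa [div_le_iff₀ hρ0] at this
  have hmaps : ∀ r ∈ 𝓡, Φ r ∈ (Fintype.piFinset (fun _ : Fin 3 => (univ : Finset Bool))) ×ˢ
      (Fintype.piFinset (fun _ : Fin 3 => F)) := by
    intro r hr'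
    obtain ⟨h1, h2, h3, h4⟩ := hu r hr'
    rw [mem_product]
    constructor
    · rw [Fintype.mem_piFinset]; intro k; exact mem_univ _
    · rw [Fintype.mem_piFinset]
      intro k
      rw [hΦ]
      show ⌊|r k| * u r / ρ⌋₊ ∈ F
      rw [hF, Set.Finite.mem_toFinset, hS]
      have h5 : 0 ≤ |r k| * u r := by positivity
      refine ⟨?_, |r k| * u r, (hcells _ h5).1, (hcells _ h5).2, h4 k⟩
      rw [hK]
      have : ⌊|r k| * u r / ρ⌋₊ ≤ ⌊V / ρ⌋₊ := by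
        apply Nat.floor_le_floor
        exact div_le_div_of_nonneg_right (h3 k) hρ0.le
      omega
  have hinj : Set.InjOn Φ 𝓡 := by
    intro r hr1 r' hr2 hrr
    by_contra hne
    obtain ⟨h1, h2, h3, h4⟩ := hu r hr1
    obtain ⟨h1', h2', h3', h4'⟩ := hu r' hr2
    rw [hΦ] at hrr
    have hb : ∀ k, decide (0 < r k) = decide (0 < r' k) := fun k => congrFun (congrArg Prod.fst hrr) k
    have hc : ∀ k, ⌊|r k| * u r / ρ⌋₊ = ⌊|r' k| * u r' / ρ⌋₊ :=
      fun k => congrFun (congrArg Prod.snd hrr) k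
    refine not_sep (u := u r) (u' := u r') (ρ := ρ) hN0 h1 h1' hρ0.le ?_ (hr r hr1) h2' ?_
      (hsep r hr1 r' hr2 hne)
    · have : 2 * ρ * (T * ℓ) * C = e * ℓ := by rw [← hρe]; ring
      nlinarith
    · intro k
      have a1 := hcells _ (show 0 ≤ |r k| * u r by positivity)
      have a2 := hcells _ (show 0 ≤ |r' k| * u r' by positivity)
      rw [← hc k] at a2
      have a3 : abs (|r k| * u r - |r' k| * u r') ≤ ρ := by
        rw [abs_le]; constructor <;> linarith [a1.1, a1.2, a2.1, a2.2]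
      have hbk := hb k
      rcases lt_or_gt_of_ne (hr r hr1 k) with hk | hk
      · have hk' : ¬ 0 < r k := not_lt.2 hk.le
        have hk2 : ¬ 0 < r' k := by
          intro h7
          rw [decide_eq_false hk', decide_eq_true h7] at hbk
          exact Bool.false_ne_true hbk
        have hk3 : r' k < 0 := lt_of_le_of_ne (not_lt.1 hk2) (hr r' hr2 k)
        rw [abs_of_neg hk, abs_of_neg hk3] at a3
        rw [abs_sub_comm]
        convert a3 using 2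
        ring
      · have hk2 : 0 < r' k := by
          by_contra h7
          rw [decide_eq_true hk, decide_eq_false h7] at hbk
          exact Bool.false_ne_true hbk.symm
        rw [abs_of_pos hk, abs_of_pos hk2] at a3
        convert a3 using 2
        ring
  have hcard := Finset.card_le_card_of_injOn Φ hmaps hinj
  rw [card_product, Fintype.card_piFinset, Fintype.card_piFinset] at hcard
  simp only [Finset.prod_const, Finset.card_univ, Fintype.card_bool, Fintype.card_fin] at hcard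
  have h9 : (𝓡.card : ℝ) ≤ 8 * (F.card : ℝ) ^ 3 := by
    have : ((𝓡.card : ℕ) : ℝ) ≤ ((2 ^ 3 * F.card ^ 3 : ℕ) : ℝ) := by exact_mod_cast hcard
    push_cast at this
    linarith
  refine h9.trans ?_
  gcongr

theorem s_mas (big : S_BIG) (cel : S_CEL) (trv : S_TRV) : S_MAS := by
  classical
  intro C hC
  have hC0 : 0 < C := by linarith
  obtain ⟨C1, hC1⟩ : ∃ C1 : ℝ, C1 = 704 * C ^ 2 * (176 * C ^ 4) * (7040 * C ^ 8) * (264 * C ^ 3) ^ 3 :=
    ⟨_, rfl⟩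
  have hC10 : 0 < C1 := by rw [hC1]; positivity
  have hCpow : ∀ n : ℕ, 1 ≤ C ^ n := fun n => one_le_pow₀ hC
  refine ⟨1 / (176 * C ^ 4), 8 * C1 ^ 3 + 7040 * C ^ 8, by positivity, ?_, ?_, ?_⟩
  · rw [div_le_one (by positivity)]; linarith [hCpow 4]
  · have := hCpow 8
    have : 0 ≤ C1 ^ 3 := by positivity
    linarith
  intro Γ T ℓ h ε hε hε1 hεT 𝓡 hr hsep hO
  have hl1 := h.hl
  have hl0 : 0 < ℓ := by linarith
  have hT1 := h.hT
  have hT0 : 0 < T := by linarith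
  have hN0 : 0 < T * ℓ := by positivity
  obtain ⟨e, he⟩ : ∃ e : ℝ, e = ε / (264 * C ^ 3) := ⟨_, rfl⟩
  obtain ⟨A, hA⟩ : ∃ A : ℝ, A = 176 * C ^ 4 / ε := ⟨_, rfl⟩
  obtain ⟨Kb, hKb⟩ : ∃ Kb : ℝ, Kb = 352 * C ^ 4 / ε := ⟨_, rfl⟩
  obtain ⟨ε₁, hε₁⟩ : ∃ ε₁ : ℝ, ε₁ = ε ^ 2 / (7040 * C ^ 8) := ⟨_, rfl⟩
  have he0 : 0 < e := by rw [he]; positivity
  have he1 : e < 1 := by
    rw [he, div_lt_one (by positivity)]
    linarith [hCpow 3]
  have hA1 : 1 ≤ A := by
    rw [hA, le_div_iff₀ hε]; linarith [hCpow 4]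
  have hA0 : 0 < A := by linarith
  have hKb1 : 1 ≤ Kb := by
    rw [hKb, le_div_iff₀ hε]; linarith [hCpow 4]
  have hε₁0 : 0 < ε₁ := by rw [hε₁]; positivity
  have hε₁1 : ε₁ ≤ 1 := by
    rw [hε₁, div_le_one (by positivity)]
    have : ε ^ 2 ≤ 1 := pow_le_one₀ hε.le hε1
    linarith [hCpow 8]
  have hε₁T : 1 ≤ ε₁ * T := by
    rw [hε₁, div_mul_eq_mul_div, le_div_iff₀ (by positivity)]
    have : 0 ≤ C1 ^ 3 := by positivity
    linarith
  -- every direction has a frequency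
  have hfreq : ∀ r ∈ 𝓡, ∃ u, Freq Γ (T * ℓ) ℓ (A * ℓ / ε₁) e r u := by
    intro r hrR
    obtain ⟨y, hy⟩ := hO r hrR
    obtain ⟨p, hp⟩ : ∃ p : Fin 3, ∀ k, |r p| ≤ |r k| := by
      obtain ⟨p, _, hp⟩ := Finset.exists_min_image (univ : Finset (Fin 3)) (fun k => |r k|)
        univ_nonempty
      exact ⟨p, fun k => hp k (mem_univ k)⟩
    have hb0 : 0 < |r p| := abs_pos.2 (hr r hrR p)
    -- lower bound for the proportion
    have hlow : ε / C ^ 2 * (T * ℓ) ^ 2 ≤ ε * (Γ.card : ℝ) ^ (3 - 1) := by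
      have h1 := h.low
      have h2 : (T * ℓ) ^ 2 ≤ (C * Γ.card) ^ 2 := pow_le_pow_left₀ hN0.le h1 2
      rw [div_mul_eq_mul_div, div_le_iff₀ (by positivity)]
      calc ε * (T * ℓ) ^ 2 ≤ ε * (C * Γ.card) ^ 2 := by gcongr
        _ = ε * (Γ.card : ℝ) ^ (3 - 1) * C ^ 2 := by norm_num; ring
    have hcnt : ∀ w : ℝ, 1 / (176 * C ^ 4) * ε * |r p| ≤ w * ℓ →
        ε / C ^ 2 * (T * ℓ) ^ 2 < cnt Γ r y w := by
      intro w hw
      refine (hlow.trans_lt hy).trans_le ?_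
      unfold cnt
      norm_cast
      apply card_le_card
      intro x hx
      rw [mem_filter] at hx ⊢
      refine ⟨hx.1, ?_⟩
      have h1 := hx.2 p
      have h2 : |∑ j, r j * x j - y| * ℓ ≤ w * ℓ := h1.trans hw
      exact le_of_mul_le_mul_right h2 hl0
    by_cases htr : ∃ a d : Fin 3, a ≠ d ∧ |r d| ≤ ε₁ * |r a|
    · exfalso
      obtain ⟨a, d, had, hda⟩ := htr
      obtain ⟨w, hw⟩ : ∃ w : ℝ, w = 1 / (176 * C ^ 4) * ε * |r p| / ℓ := ⟨_, rfl⟩
      have hwl : w * ℓ = 1 / (176 * C ^ 4) * ε * |r p| := by rw [hw]; field_simp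
      have hw0 : 0 ≤ w := by rw [hw]; positivity
      have h1 := trv Γ T ℓ C h r |r p| ε₁ Kb w y a d had hb0 hp hε₁0 hda hε₁T hKb1 hw0 (by
        have h2 : 2 * w * ℓ = 2 * (1 / (176 * C ^ 4) * ε) * |r p| := by rw [mul_assoc, hwl]; ring
        rw [h2]
        have h3 : 2 * (1 / (176 * C ^ 4) * ε) ≤ 1 := by
          rw [one_div_mul_eq_div, mul_div_assoc', div_le_one (by positivity)]
          linarith [hCpow 4]
        exact mul_le_of_le_one_left hb0.le h3)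
      have h2 := hcnt w hwl.ge
      have h3 : 176 * C ^ 2 / Kb + 10 * C ^ 2 * Kb * ε₁ = ε / C ^ 2 := by
        rw [hKb, hε₁]; field_simp; ring
      rw [h3] at h1
      linarith
    · push Not at htr
      have h1 := hcnt (|r p| / (A * ℓ)) (by
        rw [hA]
        apply le_of_eq
        field_simp)
      have h2 : 88 * C ^ 2 / A + 132 * C * e = ε / C ^ 2 := by
        rw [hA, he]; field_simp; ring
      rw [← h2] at h1
      obtain ⟨u, hu1, hu2, hu3⟩ := big Γ T ℓ C h r |r p| A e y hb0 hp hA1 he0 h1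
      have hu0 : 0 < u := lt_of_lt_of_le (by positivity) hu1
      refine ⟨u, hu0, fun k => ?_, fun k => ?_, hu3⟩
      · rw [div_le_iff₀ hb0] at hu1
        calc ℓ ≤ u * |r p| := hu1
          _ ≤ |r k| * u := by rw [mul_comm]; exact mul_le_mul_of_nonneg_right (hp k) hu0.le
      · have h3 : ε₁ * |r k| ≤ |r p| := by
          rcases eq_or_ne k p with hk | hk
          · rw [hk]; exact mul_le_of_le_one_left (abs_nonneg _) hε₁1
          · exact (htr k p hk).le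
        rw [le_div_iff₀ hb0] at hu2
        rw [le_div_iff₀ hε₁0]
        calc |r k| * u * ε₁ = (ε₁ * |r k|) * u := by ring
          _ ≤ |r p| * u := by gcongr
          _ = u * |r p| := by ring
          _ ≤ A * ℓ := hu2
  have hV : ℓ ≤ A * ℓ / ε₁ := by
    rw [le_div_iff₀ hε₁0]
    calc ℓ * ε₁ ≤ ℓ * 1 := by gcongr
      _ ≤ A * ℓ := by nlinarith
  have hfin := card_le cel h he0 he1 hV 𝓡 hr hsep hfreq
  refine hfin.trans ?_
  have e1 : 704 * C ^ 2 * (A * ℓ / ε₁) / (ℓ * e ^ 3) = C1 / ε ^ 6 := by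
    rw [hA, he, hε₁, hC1]
    field_simp
  rw [e1, le_div_iff₀ (by positivity)]
  have e2 : 8 * (C1 / ε ^ 6) ^ 3 * ε ^ 18 = 8 * C1 ^ 3 := by field_simp
  rw [e2]
  have : 0 ≤ 7040 * C ^ 8 := by positivity
  linarith

end Pool.Agent.L7h52.AR
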