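import Pool.Agent.L7h52.AR.Trv

/-! Project AR: projections, relations of any length. -/

set_option autoImplicit false

open Finset

namespace Pool.Agent.L7h52.AR

theorem s_prj : S_PRJ := by
  classical
  intro Γ ℓ κ ε m r hε hκ hℓ hr hO j hj0 hj1
  obtain ⟨y, hy⟩ := hO
  obtain ⟨F, hF⟩ : ∃ F : Finset (Fin (m + 3) → ℝ), F = (Fintype.piFinset (fun _ : Fin (m + 3) => Γ)).filter
    (fun x : Fin (m + 3) → ℝ => ∀ i, |∑ j, r j * x j - y| * ℓ ≤ κ * ε * |r i|) := ⟨_, rfl⟩
  rw [← hF] at hy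
  have h01 : (0 : Fin (m + 3)) ≠ 1 := by
    intro h
    have := congrArg Fin.val h
    simp at this
  obtain ⟨I, hI⟩ : ∃ I : Finset (Fin (m + 3)), I = {0, 1, j} := ⟨_, rfl⟩
  have hIc : I.card = 3 := by
    rw [hI, card_insert_of_notMem, card_insert_of_notMem, card_singleton]
    · simpa using fun h => hj1 h.symm
    · simp only [mem_insert, mem_singleton, not_or]
      exact ⟨h01, fun h => hj0 h.symm⟩
  have hSc : (Iᶜ).card = m := by
    rw [card_compl, hIc, Fintype.card_fin]; omega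
  have hsum : ∀ f : Fin (m + 3) → ℝ, ∑ i, f i = f 0 + f 1 + f j + ∑ i ∈ Iᶜ, f i := by
    intro f
    rw [← sum_add_sum_compl I, hI, sum_insert, sum_insert, sum_singleton]
    · ring
    · simpa using fun h => hj1 h.symm
    · simp only [mem_insert, mem_singleton, not_or]
      exact ⟨h01, fun h => hj0 h.symm⟩
  have hall : ∀ i, i = 0 ∨ i = 1 ∨ i = j ∨ i ∈ Iᶜ := by
    intro i
    by_cases h : i ∈ I
    · rw [hI, mem_insert, mem_insert, mem_singleton] at h
      tauto
    · exact Or.inr (Or.inr (Or.inr (mem_compl.2 h)))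
  -- a fibre with many elements
  obtain ⟨z, hz, hzc⟩ : ∃ z : (Iᶜ : Finset (Fin (m + 3))) → ℝ,
      z ∈ Fintype.piFinset (fun _ : (Iᶜ : Finset (Fin (m + 3))) => Γ) ∧ ε * (Γ.card : ℝ) ^ 2 <
      ((F.filter (fun x => (fun i : (Iᶜ : Finset (Fin (m + 3))) => x i) = z)).card : ℝ) := by
    by_contra hcon
    push Not at hcon
    have h1 := fib F (fun x => (fun i : (Iᶜ : Finset (Fin (m + 3))) => x i))
      (Fintype.piFinset (fun _ : (Iᶜ : Finset (Fin (m + 3))) => Γ)) (ε * (Γ.card : ℝ) ^ 2) (by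
        intro x hx
        rw [hF, mem_filter, Fintype.mem_piFinset] at hx
        rw [Fintype.mem_piFinset]
        exact fun i => hx.1 i) hcon
    rw [Fintype.card_piFinset, Finset.prod_const, Finset.card_univ, Fintype.card_coe, hSc] at h1
    push_cast at h1
    have h2 : (Γ.card : ℝ) ^ m * (ε * (Γ.card : ℝ) ^ 2) = ε * (Γ.card : ℝ) ^ (m + 3 - 1) := by
      rw [show m + 3 - 1 = m + 2 by omega, pow_add]; ring
    rw [h2] at h1
    linarith
  obtain ⟨y', hy'⟩ : ∃ y' : ℝ, y' = y - ∑ i : (Iᶜ : Finset (Fin (m + 3))), r i * z i := ⟨_, rfl⟩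
  refine ⟨y' / r 0, ?_⟩
  have hr0 := hr 0
  have hr0a : 0 < |r 0| := abs_pos.2 hr0
  show ε * (Γ.card : ℝ) ^ 2 < _
  refine hzc.trans_le ?_
  norm_cast
  refine card_le_card_of_injOn (fun x => ![x 0, x 1, x j]) ?_ ?_
  · intro x hx
    have hx' := mem_filter.1 (mem_coe.1 hx)
    have hx2 := hx'.1
    rw [hF, mem_filter, Fintype.mem_piFinset] at hx2
    refine mem_coe.2 (mem_filter.2 ⟨?_, ?_⟩)
    · rw [Fintype.mem_piFinset]
      intro i
      fin_cases i
      · exact hx2.1 0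
      · exact hx2.1 1
      · exact hx2.1 j
    · have e1 : ∑ i ∈ Iᶜ, r i * x i = ∑ i : (Iᶜ : Finset (Fin (m + 3))), r i * z i := by
        rw [← Finset.sum_coe_sort]
        refine sum_congr rfl fun i _ => ?_
        rw [← hx'.2]
      have e2 : (∑ k, (![1, r 1 / r 0, r j / r 0] : Fin 3 → ℝ) k * ![x 0, x 1, x j] k) - y' / r 0 =
          (∑ i, r i * x i - y) / r 0 := by
        rw [Fin.sum_univ_three, hsum (fun i => r i * x i), e1, hy']
        show 1 * x 0 + r 1 / r 0 * x 1 + r j / r 0 * x j - _ = _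
        field_simp
        ring
      intro i
      rw [e2, abs_div, div_mul_eq_mul_div, div_le_iff₀ hr0a]
      fin_cases i
      · have := hx2.2 0
        show _ ≤ κ * ε * |(1 : ℝ)| * |r 0|
        rw [abs_one, mul_one]
        exact this
      · have := hx2.2 1
        show _ ≤ κ * ε * |r 1 / r 0| * |r 0|
        rw [abs_div, mul_assoc, div_mul_cancel₀ _ hr0a.ne']
        exact this
      · have := hx2.2 j
        show _ ≤ κ * ε * |r j / r 0| * |r 0|
        rw [abs_div, mul_assoc, div_mul_cancel₀ _ hr0a.ne']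
        exact this
  · intro x hx x' hx' hxx
    have h1 := (mem_filter.1 (mem_coe.1 hx)).2
    have h2 := (mem_filter.1 (mem_coe.1 hx')).2
    funext i
    rcases hall i with h | h | h | h
    · rw [h]; exact congrFun hxx 0
    · rw [h]; exact congrFun hxx 1
    · rw [h]; exact congrFun hxx 2
    · exact congrFun (h1.trans h2.symm) ⟨i, h⟩

/-- the pairs of ratios of a vector -/
noncomputable def rat {m : ℕ} (r : Fin (m + 3) → ℝ) (j : Fin (m + 3)) : ℝ × ℝ :=
  (r 1 / r 0, r j / r 0)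

noncomputable def QQ {m : ℕ} (F : Finset (Fin (m + 3) → ℝ)) : Finset (ℝ × ℝ) := by
  classical
  exact F.biUnion (fun r => (univ.filter (fun j : Fin (m + 3) => j ≠ 0 ∧ j ≠ 1)).image (rat r))

lemma mem_QQ {m : ℕ} {F : Finset (Fin (m + 3) → ℝ)} {q : ℝ × ℝ} :
    q ∈ QQ F ↔ ∃ r ∈ F, ∃ j : Fin (m + 3), (j ≠ 0 ∧ j ≠ 1) ∧ rat r j = q := by
  classical
  unfold QQ
  simp only [mem_biUnion, mem_image, mem_filter, mem_univ, true_and]

/-- the vector of a pair -/
def vq (q : ℝ × ℝ) : Fin 3 → ℝ := ![1, q.1, q.2]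

lemma vq_inj {q q' : ℝ × ℝ} (h : vq q = vq q') : q = q' := Prod.ext (congrFun h 1) (congrFun h 2)

/-- the indices other than `0`, `1` -/
abbrev JJ (m : ℕ) : Type := {j : Fin (m + 3) // j ≠ 0 ∧ j ≠ 1}

lemma card_JJ (m : ℕ) : Fintype.card (JJ m) = m + 1 := by
  classical
  have h1 : Fintype.card (JJ m) = ((univ : Finset (Fin (m + 3))).filter (fun j => j ≠ 0 ∧ j ≠ 1)).card :=
    Fintype.card_subtype _
  rw [h1]
  have h2 : (univ : Finset (Fin (m + 3))).filter (fun j => j ≠ 0 ∧ j ≠ 1) = ({0, 1} : Finset _)ᶜ := by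
    ext j
    simp
  rw [h2, card_compl, Fintype.card_fin, card_insert_of_notMem, card_singleton]
  · omega
  · rw [mem_singleton]
    intro h
    have := congrArg Fin.val h
    simp at this

lemma ex_two (m : ℕ) : ∃ j : Fin (m + 3), j ≠ 0 ∧ j ≠ 1 := by
  refine ⟨⟨2, by omega⟩, ?_, ?_⟩ <;>
  · intro h
    have := congrArg Fin.val h
    simp at this

theorem s_lz : S_LZ := by
  classical
  intro Ob N M hN H m F hF hg hOb
  have h01 : (0 : Fin (m + 3)) ≠ 1 := by
    intro h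
    have := congrArg Fin.val h
    simp at this
  obtain ⟨j2, h20, h21⟩ := ex_two m
  obtain ⟨cR, hcR⟩ : ∃ cR : (Fin (m + 3) → ℤ) → (Fin (m + 3) → ℝ), cR = fun r i => (r i : ℝ) :=
    ⟨_, rfl⟩
  obtain ⟨Q, hQ⟩ : ∃ Q : Finset (ℝ × ℝ), Q = QQ (F.image cR) := ⟨_, rfl⟩
  have hQm : ∀ q ∈ Q, ∃ r ∈ F, ∃ j : Fin (m + 3), (j ≠ 0 ∧ j ≠ 1) ∧
      q = ((r 1 : ℝ) / r 0, (r j : ℝ) / r 0) := by
    intro q hq
    rw [hQ, mem_QQ] at hq
    obtain ⟨r', hr', j, hj, hjq⟩ := hq
    obtain ⟨r, hr, hrr⟩ := mem_image.1 hr'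
    refine ⟨r, hr, j, hj, ?_⟩
    rw [← hjq, ← hrr, hcR]
    rfl
  have hQc : (Q.card : ℝ) ≤ M := by
    have h1 := H (Q.image vq) (by
      intro v hv i
      obtain ⟨q, hq, rfl⟩ := mem_image.1 hv
      obtain ⟨r, hr, j, hj, rfl⟩ := hQm q hq
      have a0 : (r 0 : ℝ) ≠ 0 := by exact_mod_cast (hF r hr 0).1
      have a1 : (r 1 : ℝ) ≠ 0 := by exact_mod_cast (hF r hr 1).1
      have aj : (r j : ℝ) ≠ 0 := by exact_mod_cast (hF r hr j).1
      fin_cases i
      · exact one_ne_zero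
      · exact div_ne_zero a1 a0
      · exact div_ne_zero aj a0) (by
      intro v hv v' hv' hne
      obtain ⟨q, hq, rfl⟩ := mem_image.1 hv
      obtain ⟨q', hq', rfl⟩ := mem_image.1 hv'
      obtain ⟨r, hr, j, hj, rfl⟩ := hQm q hq
      obtain ⟨r', hr', j', hj', rfl⟩ := hQm q' hq'
      have a0 : (r 0 : ℝ) ≠ 0 := by exact_mod_cast (hF r hr 0).1
      have a0' : (r' 0 : ℝ) ≠ 0 := by exact_mod_cast (hF r' hr' 0).1
      have p0 : 0 < |(r 0 : ℝ)| := abs_pos.2 a0
      have p0' : 0 < |(r' 0 : ℝ)| := abs_pos.2 a0'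
      -- every entry
      have hent : ∀ (s : Fin (m + 3) → ℤ), s ∈ F → ∀ (i : Fin (m + 3)) (k : Fin 3),
          |vq ((s 1 : ℝ) / s 0, (s i : ℝ) / s 0) k| * |(s 0 : ℝ)| ≤ Real.sqrt N := by
        intro s hs i k
        have b0 : (s 0 : ℝ) ≠ 0 := by exact_mod_cast (hF s hs 0).1
        have b1 : ∀ l, |(s l : ℝ)| ≤ Real.sqrt N := fun l => by
          apply Real.abs_le_sqrt
          exact (hF s hs l).2
        fin_cases k
        · show |(1 : ℝ)| * |(s 0 : ℝ)| ≤ _
          rw [abs_one, one_mul]; exact b1 0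
        · show |(s 1 : ℝ) / s 0| * |(s 0 : ℝ)| ≤ _
          rw [abs_div, div_mul_cancel₀ _ (abs_pos.2 b0).ne']; exact b1 1
        · show |(s i : ℝ) / s 0| * |(s 0 : ℝ)| ≤ _
          rw [abs_div, div_mul_cancel₀ _ (abs_pos.2 b0).ne']; exact b1 i
      have hmin : ∀ (x y : ℤ), (x : ℝ) / r 0 ≠ (y : ℝ) / r' 0 →
          1 ≤ |(y : ℝ) / r' 0 - (x : ℝ) / r 0| * (|(r 0 : ℝ)| * |(r' 0 : ℝ)|) := by
        intro x y hxy
        have e1 : ((y : ℝ) / r' 0 - (x : ℝ) / r 0) * ((r 0 : ℝ) * r' 0) =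
            ((y * r 0 - x * r' 0 : ℤ) : ℝ) := by
          push_cast; field_simp
        rw [← abs_mul, ← abs_mul, e1]
        have e2 : (y * r 0 - x * r' 0 : ℤ) ≠ 0 := by
          intro h0
          apply hxy
          rw [div_eq_div_iff a0 a0']
          have : ((y * r 0 - x * r' 0 : ℤ) : ℝ) = 0 := by rw [h0]; simp
          push_cast at this
          linarith
        rw [← Int.cast_abs]
        exact_mod_cast Int.one_le_abs e2
      have hfin : ∀ d : ℝ, 1 ≤ |d| * (|(r 0 : ℝ)| * |(r' 0 : ℝ)|) → ∀ k l : Fin 3,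
          |vq ((r 1 : ℝ) / r 0, (r j : ℝ) / r 0) k| * |vq ((r' 1 : ℝ) / r' 0, (r' j' : ℝ) / r' 0) l| ≤
            N * |d| := by
        intro d hd k l
        have c1 := hent r hr j k
        have c2 := hent r' hr' j' l
        have c3 := mul_le_mul c1 c2 (by positivity) (Real.sqrt_nonneg _)
        rw [Real.mul_self_sqrt (by linarith)] at c3
        have pp : 0 < |(r 0 : ℝ)| * |(r' 0 : ℝ)| := by positivity
        have c4 : (|vq ((r 1 : ℝ) / r 0, (r j : ℝ) / r 0) k| *
            |vq ((r' 1 : ℝ) / r' 0, (r' j' : ℝ) / r' 0) l|) * (|(r 0 : ℝ)| * |(r' 0 : ℝ)|) ≤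
            (N * |d|) * (|(r 0 : ℝ)| * |(r' 0 : ℝ)|) := by
          have c5 : N * 1 ≤ N * (|d| * (|(r 0 : ℝ)| * |(r' 0 : ℝ)|)) :=
            mul_le_mul_of_nonneg_left hd (by linarith)
          linarith
        exact le_of_mul_le_mul_right c4 pp
      by_cases h1 : (r 1 : ℝ) / r 0 = (r' 1 : ℝ) / r' 0
      · have h2 : (r j : ℝ) / r 0 ≠ (r' j' : ℝ) / r' 0 := by
          intro h2
          exact hne (by rw [h1, h2])
        refine ⟨0, 2, ?_⟩
        have e3 : vq ((r 1 : ℝ) / r 0, (r j : ℝ) / r 0) 0 *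
            vq ((r' 1 : ℝ) / r' 0, (r' j' : ℝ) / r' 0) 2 -
            vq ((r 1 : ℝ) / r 0, (r j : ℝ) / r 0) 2 *
            vq ((r' 1 : ℝ) / r' 0, (r' j' : ℝ) / r' 0) 0 = (r' j' : ℝ) / r' 0 - (r j : ℝ) / r 0 := by
          show (1 : ℝ) * _ - _ * 1 = _
          rw [one_mul, mul_one]
          rfl
        rw [e3]
        exact hfin _ (hmin _ _ h2)
      · refine ⟨0, 1, ?_⟩
        have e3 : vq ((r 1 : ℝ) / r 0, (r j : ℝ) / r 0) 0 *
            vq ((r' 1 : ℝ) / r' 0, (r' j' : ℝ) / r' 0) 1 -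
            vq ((r 1 : ℝ) / r 0, (r j : ℝ) / r 0) 1 *
            vq ((r' 1 : ℝ) / r' 0, (r' j' : ℝ) / r' 0) 0 = (r' 1 : ℝ) / r' 0 - (r 1 : ℝ) / r 0 := by
          show (1 : ℝ) * _ - _ * 1 = _
          rw [one_mul, mul_one]
          rfl
        rw [e3]
        exact hfin _ (hmin _ _ h1)) (by
      intro v hv
      obtain ⟨q, hq, rfl⟩ := mem_image.1 hv
      obtain ⟨r, hr, j, hj, rfl⟩ := hQm q hq
      exact hOb r hr j hj.1 hj.2)
    rwa [card_image_of_injective _ (fun q q' h => vq_inj h)] at h1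
  obtain ⟨Ψ, hΨ⟩ : ∃ Ψ : (Fin (m + 3) → ℤ) → Bool × (JJ m → ℝ × ℝ),
    Ψ = fun r => (decide (0 < r 0), fun j => ((r 1 : ℝ) / r 0, (r j : ℝ) / r 0)) := ⟨_, rfl⟩
  have hmaps : ∀ r ∈ F, Ψ r ∈ (univ : Finset Bool) ×ˢ (Fintype.piFinset (fun _ : JJ m => Q)) := by
    intro r hr
    rw [mem_product]
    refine ⟨mem_univ _, ?_⟩
    rw [Fintype.mem_piFinset]
    intro j
    rw [hΨ, hQ, mem_QQ]
    refine ⟨cR r, mem_image_of_mem _ hr, j.1, j.2, ?_⟩
    rw [hcR]
    rfl
  have hinj : Set.InjOn Ψ F := by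
    intro r hr r' hr' hrr
    rw [hΨ] at hrr
    have hs : decide (0 < r 0) = decide (0 < r' 0) := congrArg Prod.fst hrr
    have hq : ∀ j : JJ m, ((r 1 : ℝ) / r 0, (r j : ℝ) / r 0) = ((r' 1 : ℝ) / r' 0, (r' j : ℝ) / r' 0) :=
      fun j => congrFun (congrArg Prod.snd hrr) j
    have a0 : (r 0 : ℝ) ≠ 0 := by exact_mod_cast (hF r hr 0).1
    have a0' : (r' 0 : ℝ) ≠ 0 := by exact_mod_cast (hF r' hr' 0).1
    have hrat : ∀ i, (r i : ℝ) / r 0 = (r' i : ℝ) / r' 0 := by
      intro i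
      by_cases h0 : i = 0
      · rw [h0, div_self a0, div_self a0']
      · by_cases h1 : i = 1
        · rw [h1]; exact congrArg Prod.fst (hq ⟨j2, h20, h21⟩)
        · exact congrArg Prod.snd (hq ⟨i, h0, h1⟩)
    have hcross : ∀ i, r' 0 * r i = r 0 * r' i := by
      intro i
      have h1 := hrat i
      rw [div_eq_div_iff a0 a0'] at h1
      have h2 : ((r i * r' 0 : ℤ) : ℝ) = ((r' i * r 0 : ℤ) : ℝ) := by push_cast; exact h1
      have h3 : r i * r' 0 = r' i * r 0 := by exact_mod_cast h2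
      linarith
    have hgc : normalize (r' 0) = normalize (r 0) := by
      have h1 : univ.gcd (fun i => r' 0 * r i) = univ.gcd (fun i => r 0 * r' i) := by
        congr 1
        funext i
        exact hcross i
      rw [Finset.gcd_mul_left, Finset.gcd_mul_left, hg r hr, hg r' hr', mul_one, mul_one] at h1
      exact h1
    rw [← Int.abs_eq_normalize, ← Int.abs_eq_normalize] at hgc
    have h00 : r' 0 = r 0 := by
      rcases lt_or_gt_of_ne (hF r hr 0).1 with h | h
      · have h' : ¬ 0 < r 0 := not_lt.2 h.le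
        have h2 : ¬ 0 < r' 0 := by
          intro h7
          rw [decide_eq_false h', decide_eq_true h7] at hs
          exact Bool.false_ne_true hs
        have h3 : r' 0 < 0 := lt_of_le_of_ne (not_lt.1 h2) (hF r' hr' 0).1
        rw [abs_of_neg h, abs_of_neg h3] at hgc
        linarith
      · have h2 : 0 < r' 0 := by
          by_contra h7
          rw [decide_eq_true h, decide_eq_false h7] at hs
          exact Bool.false_ne_true hs.symm
        rw [abs_of_pos h, abs_of_pos h2] at hgc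
        exact hgc
    funext i
    have h5 := hcross i
    rw [h00] at h5
    exact mul_left_cancel₀ (hF r hr 0).1 h5
  have hcard := Finset.card_le_card_of_injOn Ψ hmaps hinj
  rw [card_product, Fintype.card_piFinset, Finset.prod_const, Finset.card_univ, Finset.card_univ,
    Fintype.card_bool, card_JJ] at hcard
  have h9 : (F.card : ℝ) ≤ 2 * (Q.card : ℝ) ^ (m + 1) := by exact_mod_cast hcard
  refine h9.trans ?_
  gcongr

theorem s_lr : S_LR := by
  classical
  intro m F Ob Of N M δ hM hδ hN H hF hnp hOb hfreq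
  obtain ⟨j2, h20, h21⟩ := ex_two m
  obtain ⟨Q, hQ⟩ : ∃ Q : Finset (ℝ × ℝ), Q = QQ F := ⟨_, rfl⟩
  have hQm : ∀ q ∈ Q, ∃ r ∈ F, ∃ j : Fin (m + 3), (j ≠ 0 ∧ j ≠ 1) ∧ q = (r 1 / r 0, r j / r 0) := by
    intro q hq
    rw [hQ, mem_QQ] at hq
    obtain ⟨r, hr, j, hj, hjq⟩ := hq
    exact ⟨r, hr, j, hj, hjq.symm⟩
  have hQ0 : ∀ q ∈ Q, ∀ i, vq q i ≠ 0 := by
    intro q hq i
    obtain ⟨r, hr, j, hj, rfl⟩ := hQm q hq
    have a0 := hF r hr 0
    fin_cases i
    · exact one_ne_zero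
    · exact div_ne_zero (hF r hr 1) a0
    · exact div_ne_zero (hF r hr j) a0
  -- separation
  have hsep : ∀ᶠ k in Filter.atTop, ∀ q ∈ Q, ∀ q' ∈ Q, q ≠ q' → Sep (N k) (vq q) (vq q') := by
    rw [Finset.eventually_all]
    intro q hq
    rw [Finset.eventually_all]
    intro q' hq'
    by_cases hne : q = q'
    · exact Filter.Eventually.of_forall fun k h => absurd hne h
    obtain ⟨i, j, hij⟩ : ∃ i j : Fin 3, vq q i * vq q' j - vq q j * vq q' i ≠ 0 := by
      by_cases h1 : q.1 = q'.1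
      · refine ⟨0, 2, ?_⟩
        show 1 * q'.2 - q.2 * 1 ≠ 0
        intro h2
        apply hne
        exact Prod.ext h1 (by linarith)
      · refine ⟨0, 1, ?_⟩
        show 1 * q'.1 - q.1 * 1 ≠ 0
        intro h2
        apply h1
        linarith
    obtain ⟨B, hB⟩ : ∃ B : ℝ, ∀ k l : Fin 3, |vq q k| * |vq q' l| ≤ B := by
      refine ⟨∑ k : Fin 3, ∑ l : Fin 3, |vq q k| * |vq q' l|, fun k l => ?_⟩
      have b1 := single_le_sum (f := fun l => |vq q k| * |vq q' l|) (s := univ)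
        (fun l _ => by positivity) (mem_univ l)
      have b2 := single_le_sum (f := fun k => ∑ l : Fin 3, |vq q k| * |vq q' l|) (s := univ)
        (fun k _ => sum_nonneg fun l _ => by positivity) (mem_univ k)
      exact b1.trans b2
    filter_upwards [hN.eventually_ge_atTop (B / |vq q i * vq q' j - vq q j * vq q' i|)] with k hk _
    refine ⟨i, j, fun k' l' => (hB k' l').trans ?_⟩
    rwa [div_le_iff₀ (abs_pos.2 hij)] at hk
  -- the count at one scale
  have hone : ∀ᶠ k in Filter.atTop, ((F.filter (fun r => Of k r)).card : ℝ) ≤ M ^ (m + 1) := by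
    filter_upwards [hsep, H] with k hs hk
    obtain ⟨Q', hQ'⟩ : ∃ Q' : Finset (ℝ × ℝ), Q' = Q.filter (fun q => Ob k (vq q)) := ⟨_, rfl⟩
    have h1 := hk (Q'.image vq) (by
      intro v hv i
      obtain ⟨q, hq, rfl⟩ := mem_image.1 hv
      rw [hQ', mem_filter] at hq
      exact hQ0 q hq.1 i) (by
      intro v hv v' hv' hne
      obtain ⟨q, hq, rfl⟩ := mem_image.1 hv
      obtain ⟨q', hq', rfl⟩ := mem_image.1 hv'
      rw [hQ', mem_filter] at hq hq'
      exact hs q hq.1 q' hq'.1 (fun h => hne (by rw [h]))) (by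
      intro v hv
      obtain ⟨q, hq, rfl⟩ := mem_image.1 hv
      rw [hQ', mem_filter] at hq
      exact hq.2)
    rw [card_image_of_injective _ (fun q q' h => vq_inj h)] at h1
    obtain ⟨Ψ, hΨ⟩ : ∃ Ψ : (Fin (m + 3) → ℝ) → (JJ m → ℝ × ℝ),
      Ψ = fun r => (fun j => (r 1 / r 0, r j / r 0)) := ⟨_, rfl⟩
    have hmaps : ∀ r ∈ F.filter (fun r => Of k r), Ψ r ∈ Fintype.piFinset (fun _ : JJ m => Q') := by
      intro r hr
      rw [mem_filter] at hr
      rw [Fintype.mem_piFinset]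
      intro j
      rw [hΨ, hQ', mem_filter]
      refine ⟨?_, hOb r hr.1 k hr.2 j.1 j.2.1 j.2.2⟩
      rw [hQ, mem_QQ]
      exact ⟨r, hr.1, j.1, j.2, rfl⟩
    have hinj : Set.InjOn Ψ (F.filter (fun r => Of k r)) := by
      intro r hr r' hr' hrr
      have hr1 := (mem_filter.1 (mem_coe.1 hr)).1
      have hr1' := (mem_filter.1 (mem_coe.1 hr')).1
      by_contra hne
      rw [hΨ] at hrr
      have hq : ∀ j : JJ m, (r 1 / r 0, r j / r 0) = (r' 1 / r' 0, r' j / r' 0) :=
        fun j => congrFun hrr j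
      have a0 := hF r hr1 0
      have a0' := hF r' hr1' 0
      have hrat : ∀ i, r i / r 0 = r' i / r' 0 := by
        intro i
        by_cases h0 : i = 0
        · rw [h0, div_self a0, div_self a0']
        · by_cases h1 : i = 1
          · rw [h1]; exact congrArg Prod.fst (hq ⟨j2, h20, h21⟩)
          · exact congrArg Prod.snd (hq ⟨i, h0, h1⟩)
      apply hnp r hr1 r' hr1' hne
      refine ⟨r' 0 / r 0, ?_⟩
      funext i
      have h5 := hrat i
      rw [div_eq_div_iff a0 a0'] at h5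
      show r' i = r' 0 / r 0 * r i
      field_simp
      linarith
    have hcard := Finset.card_le_card_of_injOn Ψ hmaps hinj
    rw [Fintype.card_piFinset, Finset.prod_const, Finset.card_univ, card_JJ] at hcard
    have h9 : ((F.filter (fun r => Of k r)).card : ℝ) ≤ (Q'.card : ℝ) ^ (m + 1) := by
      exact_mod_cast hcard
    refine h9.trans ?_
    gcongr
  obtain ⟨k0, hk0⟩ := Filter.eventually_atTop.1 hone
  -- all scales
  have hfin : ∀ n : ℕ, ∀ r, (Set.ncard {k : ℕ | k < n ∧ Of k r} : ℝ) =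
      ∑ k ∈ Finset.range n, (if Of k r then (1 : ℝ) else 0) := by
    intro n r
    rw [Finset.sum_boole]
    congr 1
    rw [← Set.ncard_coe_finset]
    congr 1
    ext k
    simp
  have hsum : ∀ n : ℕ, ∑ r ∈ F, (Set.ncard {k : ℕ | k < n ∧ Of k r} : ℝ) ≤
      k0 * F.card + n * M ^ (m + 1) := by
    intro n
    rw [sum_congr rfl fun r _ => hfin n r, sum_comm]
    have h1 : ∀ k ∈ Finset.range n, ∑ r ∈ F, (if Of k r then (1 : ℝ) else 0) ≤
        (if k < k0 then (F.card : ℝ) else 0) + M ^ (m + 1) := by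
      intro k _
      rw [Finset.sum_boole]
      split_ifs with h
      · have h2 : ((F.filter (fun r => Of k r)).card : ℝ) ≤ F.card := by
          exact_mod_cast card_filter_le _ _
        have h3 : 0 ≤ M ^ (m + 1) := by positivity
        linarith
      · rw [zero_add]
        exact hk0 k (not_lt.1 h)
    refine (sum_le_sum h1).trans ?_
    rw [sum_add_distrib, sum_const, card_range, nsmul_eq_mul]
    have h4 : ∑ k ∈ Finset.range n, (if k < k0 then (F.card : ℝ) else 0) ≤ k0 * F.card := by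
      rw [← sum_filter, sum_const, nsmul_eq_mul]
      have h5 : ((Finset.range n).filter (fun k => k < k0)).card ≤ k0 := by
        have h6 : (Finset.range n).filter (fun k => k < k0) ⊆ Finset.range k0 := by
          intro k hk
          rw [mem_filter] at hk
          exact Finset.mem_range.2 hk.2
        have := card_le_card h6
        rwa [card_range] at this
      have h7 : (((Finset.range n).filter (fun k => k < k0)).card : ℝ) ≤ k0 := by exact_mod_cast h5
      gcongr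
    linarith
  have hev : ∀ᶠ n : ℕ in Filter.atTop, ∀ r ∈ F, δ * n ≤ (Set.ncard {k : ℕ | k < n ∧ Of k r} : ℝ) := by
    rw [Finset.eventually_all]
    exact hfreq
  by_contra hcon
  push Not at hcon
  have hd : 0 < δ * F.card - M ^ (m + 1) := by linarith
  obtain ⟨n, hn1, hn2⟩ := (hev.and (Filter.eventually_gt_atTop
    ⌈(k0 * F.card : ℝ) / (δ * F.card - M ^ (m + 1))⌉₊)).exists
  have h1 : ∑ r ∈ F, δ * (n : ℝ) ≤ ∑ r ∈ F, (Set.ncard {k : ℕ | k < n ∧ Of k r} : ℝ) :=
    sum_le_sum hn1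
  rw [sum_const, nsmul_eq_mul] at h1
  have h2 := h1.trans (hsum n)
  have h3 : (k0 * F.card : ℝ) / (δ * F.card - M ^ (m + 1)) < n := by
    refine (Nat.le_ceil _).trans_lt ?_
    exact_mod_cast hn2
  rw [div_lt_iff₀ hd] at h3
  nlinarith

end Pool.Agent.L7h52.AR
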