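import Pool.Agent.L7h52.AR.Stm

/-! Project AR: relations with a small coefficient. -/

set_option autoImplicit false

open Finset

namespace Pool.Agent.L7h52.AR

lemma fib {α β : Type*} [DecidableEq β] (s : Finset α) (f : α → β) (t : Finset β) (B : ℝ)
    (hf : ∀ x ∈ s, f x ∈ t) (h : ∀ b ∈ t, ((s.filter (fun x => f x = b)).card : ℝ) ≤ B) :
    (s.card : ℝ) ≤ t.card * B := by
  rw [card_eq_sum_card_fiberwise (f := f) (t := t) hf]
  push_cast
  rw [← nsmul_eq_mul, ← sum_const]
  exact sum_le_sum h

lemma third : ∀ a d : Fin 3, a ≠ d → ∃ c : Fin 3, c ≠ a ∧ c ≠ d ∧ ∀ k, k = a ∨ k = c ∨ k = d := by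
  decide

lemma sum3 {a c d : Fin 3} (h1 : c ≠ a) (h2 : c ≠ d) (h3 : a ≠ d)
    (f : Fin 3 → ℝ) : ∑ i, f i = f a + f c + f d := by
  have : (univ : Finset (Fin 3)) = {a, c, d} := by
    revert a c d; decide
  rw [this, sum_insert, sum_insert, sum_singleton, add_assoc]
  · simpa using h2
  · simp only [mem_insert, mem_singleton, not_or]
    exact ⟨h1.symm, h3⟩

theorem s_trv (two : S_TWO) : S_TRV := by
  classical
  intro Γ T ℓ C h r b ε₁ K w y a d had hb hr hε₁ hda hεT hK hw hwb
  have hl1 := h.hl
  have hl0 : 0 < ℓ := by linarith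
  have hT1 := h.hT
  have hT0 : 0 < T := by linarith
  have hC1 := h.hC
  have hC0 : 0 < C := by linarith
  have hN0 : 0 < T * ℓ := by positivity
  have hK0 : 0 < K := by linarith
  obtain ⟨c, hca, hcd, hall⟩ := third a d had
  have hra : 0 < |r a| := lt_of_lt_of_le hb (hr a)
  have hrd : 0 < |r d| := lt_of_lt_of_le hb (hr d)
  have hwl : w ≤ b / ℓ := by rw [le_div_iff₀ hl0]; nlinarith
  obtain ⟨D, hD⟩ : ∃ D : Finset ℝ, D = Γ.filter (fun x => K <
    ((Γ.filter (fun x' => |x - x'| ≤ 1 / ℓ)).card : ℝ)) := ⟨_, rfl⟩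
  have hDc : (D.card : ℝ) ≤ 2 * C * (T * ℓ) / K := by
    rw [le_div_iff₀ hK0]
    have h1 : (D.card : ℝ) * K ≤ ∑ x ∈ D, ((Γ.filter (fun x' => |x - x'| ≤ 1 / ℓ)).card : ℝ) := by
      rw [← nsmul_eq_mul, ← sum_const]
      refine sum_le_sum fun x hx => ?_
      rw [hD, mem_filter] at hx
      exact hx.2.le
    refine h1.trans ?_
    have h2 : ∑ x ∈ D, ((Γ.filter (fun x' => |x - x'| ≤ 1 / ℓ)).card : ℝ) ≤
        ∑ x ∈ Γ, ((Γ.filter (fun x' => |x - x'| ≤ 1 / ℓ)).card : ℝ) := by
      rw [hD]
      exact sum_le_sum_of_subset_of_nonneg (filter_subset _ _) fun x _ _ => Nat.cast_nonneg _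
    refine h2.trans ?_
    have h3 : ∀ x ∈ Γ, ((Γ.filter (fun x' => |x - x'| ≤ 1 / ℓ)).card : ℝ) ≤
        ∑ x' ∈ Γ, 2 * (1 / (1 + (ℓ * (x - x')) ^ 2)) := by
      intro x _
      rw [← sum_boole (R := ℝ)]
      refine sum_le_sum fun x' _ => ?_
      split_ifs with h4
      · rw [mul_one_div, le_div_iff₀ (by positivity), one_mul]
        rw [le_div_iff₀ hl0] at h4
        have h5 : (ℓ * (x - x')) ^ 2 ≤ 1 := by
          have h6 : (ℓ * (x - x')) ^ 2 = (|x - x'| * ℓ) ^ 2 := by
            rw [mul_pow, mul_pow, sq_abs]; ring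
          rw [h6]
          exact pow_le_one₀ (by positivity) h4
        linarith
      · positivity
    refine (sum_le_sum h3).trans ?_
    have h7 : ∑ x ∈ Γ, ∑ x' ∈ Γ, 2 * (1 / (1 + (ℓ * (x - x')) ^ 2)) =
        2 * ∑ x ∈ Γ, ∑ x' ∈ Γ, 1 / (1 + (ℓ * (x - x')) ^ 2) := by
      rw [mul_sum]
      refine sum_congr rfl fun x _ => ?_
      rw [mul_sum]
    rw [h7]
    have := h.pairs
    linarith
  obtain ⟨F, hF⟩ : ∃ F : Finset (Fin 3 → ℝ), F = (Fintype.piFinset (fun _ : Fin 3 => Γ)).filter
    (fun x : Fin 3 → ℝ => |∑ i, r i * x i - y| ≤ w) := ⟨_, rfl⟩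
  have hFm : ∀ x ∈ F, (∀ k, x k ∈ Γ) ∧ |r a * x a + r c * x c + r d * x d - y| ≤ w := by
    intro x hx
    rw [hF, mem_filter, Fintype.mem_piFinset, sum3 hca hcd had] at hx
    exact hx
  have hcnt : cnt Γ r y w = (F.card : ℝ) := by rw [hF]; rfl
  rw [hcnt, ← card_filter_add_card_filter_not (s := F) (fun x => x d ∈ D)]
  push_cast
  -- the first part
  have hA : ((F.filter (fun x => x d ∈ D)).card : ℝ) ≤ 176 * C ^ 2 / K * (T * ℓ) ^ 2 := by
    have h1 := fib (F.filter (fun x => x d ∈ D)) (fun x => x d) D (88 * C * (T * ℓ))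
      (fun x hx => (mem_filter.1 hx).2) (by
        intro z _
        refine le_trans ?_ (two Γ T ℓ C h (r a) (r c) b (y - r d * z) hb (hr a) (hr c))
        norm_cast
        refine card_le_card_of_injOn (fun x => (x a, x c)) ?_ ?_
        · intro x hx
          have hx' := mem_filter.1 (mem_coe.1 hx)
          have hx2 := hFm x (mem_filter.1 hx'.1).1
          refine mem_coe.2 (mem_filter.2 ⟨mem_product.2 ⟨hx2.1 a, hx2.1 c⟩, ?_⟩)
          show |r a * x a + r c * x c - (y - r d * z)| ≤ b / ℓ
          have e1 : r a * x a + r c * x c - (y - r d * z) =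
              r a * x a + r c * x c + r d * x d - y := by rw [hx'.2]; ring
          rw [e1]
          exact hx2.2.trans hwl
        · intro x hx x' hx' hxx
          have hxd := (mem_filter.1 (mem_coe.1 hx)).2
          have hxd' := (mem_filter.1 (mem_coe.1 hx')).2
          have e1 : x a = x' a := congrArg Prod.fst hxx
          have e2 : x c = x' c := congrArg Prod.snd hxx
          funext k
          rcases hall k with hk | hk | hk
          · rw [hk]; exact e1
          · rw [hk]; exact e2
          · rw [hk]; exact hxd.trans hxd'.symm)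
    refine h1.trans ?_
    calc (D.card : ℝ) * (88 * C * (T * ℓ)) ≤ (2 * C * (T * ℓ) / K) * (88 * C * (T * ℓ)) := by
          gcongr
      _ = 176 * C ^ 2 / K * (T * ℓ) ^ 2 := by ring
  have hB : ((F.filter (fun x => ¬ x d ∈ D)).card : ℝ) ≤ 10 * C ^ 2 * K * ε₁ * (T * ℓ) ^ 2 := by
    have h1 := fib (F.filter (fun x => ¬ x d ∈ D)) (fun x => x c) Γ (4 * C * ε₁ * (T * ℓ) * K)
      (fun x hx => (hFm x (mem_filter.1 hx).1).1 c) (by
        intro z _
        obtain ⟨q, hq⟩ : ∃ q : ℝ, q = (y - r c * z) / r a := ⟨_, rfl⟩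
        have h2 := fib ((F.filter (fun x => ¬ x d ∈ D)).filter (fun x => x c = z)) (fun x => x a)
          (Γ.filter (fun x => q - (ε₁ * T + 1 / 2) ≤ x ∧ x ≤ q - (ε₁ * T + 1 / 2) +
            (2 * (ε₁ * T) + 1))) K (by
            intro x hx
            have hx' := mem_filter.1 hx
            have hx2 := hFm x (mem_filter.1 hx'.1).1
            rw [mem_filter]
            refine ⟨hx2.1 a, ?_⟩
            have hra0 : r a ≠ 0 := abs_pos.1 hra
            have e1 : x a - q = ((r a * x a + r c * x c + r d * x d - y) - r d * x d) / r a := by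
              rw [hq, hx'.2]; field_simp; ring
            have e2 : |x a - q| ≤ ε₁ * T + 1 / 2 := by
              rw [e1, abs_div, div_le_iff₀ hra]
              refine (abs_sub _ _).trans ?_
              have e3 : |r d * x d| ≤ ε₁ * |r a| * T := by
                rw [abs_mul, abs_of_pos (h.pos _ (hx2.1 d)).1]
                exact mul_le_mul hda (h.pos _ (hx2.1 d)).2 (h.pos _ (hx2.1 d)).1.le (by positivity)
              have e4 : w ≤ 1 / 2 * |r a| := by
                have := hr a
                nlinarith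
              have e5 := hx2.2
              linarith
            rw [abs_le] at e2
            constructor <;> linarith) (by
            intro p _
            by_cases hne : (((F.filter (fun x => ¬ x d ∈ D)).filter (fun x => x c = z)).filter
              (fun x => x a = p)).Nonempty
            · obtain ⟨x0, hx0⟩ := hne
              rw [mem_filter, mem_filter, mem_filter] at hx0
              have hx0D : ¬ x0 d ∈ D := hx0.1.1.2
              have hx02 := hFm x0 hx0.1.1.1
              rw [hD, mem_filter, not_and] at hx0D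
              have h3 := not_lt.1 (hx0D (hx02.1 d))
              refine le_trans ?_ h3
              norm_cast
              refine card_le_card_of_injOn (fun x => x d) ?_ ?_
              · intro x hx
                have hx' := mem_coe.1 hx
                rw [mem_filter, mem_filter, mem_filter] at hx'
                have hx2 := hFm x hx'.1.1.1
                refine mem_coe.2 (mem_filter.2 ⟨hx2.1 d, ?_⟩)
                show |x0 d - x d| ≤ 1 / ℓ
                have e6 : r d * (x0 d - x d) = (r a * x0 a + r c * x0 c + r d * x0 d - y) -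
                    (r a * x a + r c * x c + r d * x d - y) := by
                  rw [hx'.2, hx'.1.2, hx0.2, hx0.1.2]; ring
                have e7 : |r d| * |x0 d - x d| ≤ w + w := by
                  rw [← abs_mul, e6]
                  exact (abs_sub _ _).trans (add_le_add hx02.2 hx2.2)
                rw [le_div_iff₀ hl0]
                have e8 : |r d| * (|x0 d - x d| * ℓ) ≤ |r d| * 1 := by
                  have := hr d
                  nlinarith
                exact le_of_mul_le_mul_left e8 hrd
              · intro x hx x' hx' hxx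
                have hx1 := mem_coe.1 hx
                have hx1' := mem_coe.1 hx'
                rw [mem_filter, mem_filter] at hx1 hx1'
                funext k
                rcases hall k with hk | hk | hk
                · rw [hk]; exact hx1.2.trans hx1'.2.symm
                · rw [hk]; exact hx1.1.2.trans hx1'.1.2.symm
                · rw [hk]; exact hxx
            · rw [not_nonempty_iff_eq_empty] at hne
              rw [hne]
              simp only [card_empty, Nat.cast_zero]
              exact hK0.le)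
        refine h2.trans ?_
        have h3 := h.loc (q - (ε₁ * T + 1 / 2)) (2 * (ε₁ * T) + 1) (by positivity)
        have h4 : C * (2 * (ε₁ * T) + 1 + 1) * ℓ ≤ 4 * C * ε₁ * (T * ℓ) := by
          have : C * ℓ * (2 * (ε₁ * T) + 1 + 1) ≤ C * ℓ * (4 * (ε₁ * T)) := by
            apply mul_le_mul_of_nonneg_left _ (by positivity); linarith
          linarith
        exact mul_le_mul_of_nonneg_right (h3.trans h4) hK0.le)
    refine h1.trans ?_
    have h5 := h.up
    calc (Γ.card : ℝ) * (4 * C * ε₁ * (T * ℓ) * K) ≤ (C * (T * ℓ)) * (4 * C * ε₁ * (T * ℓ) * K) := by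
          gcongr
      _ = 4 * (C ^ 2 * K * ε₁ * (T * ℓ) ^ 2) := by ring
      _ ≤ 10 * (C ^ 2 * K * ε₁ * (T * ℓ) ^ 2) := by
          apply mul_le_mul_of_nonneg_right (by norm_num) (by positivity)
      _ = 10 * C ^ 2 * K * ε₁ * (T * ℓ) ^ 2 := by ring
  linarith

end Pool.Agent.L7h52.AR
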