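import Pool.Agent.TH801.LU.Ex
import Pool.Agent.TH801.LR.Main
import Pool.Agent.L7h52.AR.Stm

/-! Project AR: the set of ordinates. -/

set_option autoImplicit false

open Finset MeasureTheory Complex

namespace Pool.Agent.L7h52.AR

open H370 (Zf zset mult NN mem_Zf NN_eq good_zeta)
open Pool.Agent.TH801.LR (cell)
open Pool.Agent.TH801.LU (ZZ mu mem_ZZ ZZ_mono mu_nonneg mu_one split Qpair u1 u3 Gam wU mem_Gam
  wU_nonneg wU_one sum_Gam' Gam_sum Gam_pairs)

lemma Gam_pos {T x : ℝ} (hx : x ∈ Gam T) : 0 < x ∧ x ≤ T := by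
  obtain ⟨z, hz, hzx⟩ := mem_Gam.1 hx
  rw [mem_ZZ, hzx] at hz
  exact ⟨hz.2.2.1, hz.2.2.2.1⟩

lemma Gam_card_le (T : ℝ) : ((Gam T).card : ℝ) ≤ ∑ s ∈ ZZ T, mu s := by
  rw [← Gam_sum]
  have : ((Gam T).card : ℝ) = ∑ x ∈ Gam T, (1 : ℝ) := by simp
  rw [this]
  exact sum_le_sum fun x hx => wU_one hx

lemma wU_sq (T : ℝ) (hT : 1 < T) : ∑ x ∈ Gam T, wU T x ^ 2 ≤ Qpair T := by
  have hl : 0 < Real.log T := Real.log_pos hT
  have h1 : ∑ x ∈ Gam T, wU T x * ∑ y ∈ Gam T, wU T y *
        (if |x - y| ≤ 1 / Real.log T then (1 : ℝ) else 0) = Qpair T := by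
    rw [sum_Gam' T (fun x => ∑ y ∈ Gam T, wU T y *
        (if |x - y| ≤ 1 / Real.log T then (1 : ℝ) else 0))]
    unfold Qpair
    refine sum_congr rfl fun x _ => ?_
    rw [sum_Gam' T (fun y => (if |x.im - y| ≤ 1 / Real.log T then (1 : ℝ) else 0)), mul_sum]
    refine sum_congr rfl fun y _ => ?_
    ring
  rw [← h1]
  refine sum_le_sum fun x hx => ?_
  rw [sq]
  refine mul_le_mul_of_nonneg_left ?_ (wU_nonneg T x)
  have h2 : wU T x * (if |x - x| ≤ 1 / Real.log T then (1 : ℝ) else 0) ≤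
      ∑ y ∈ Gam T, wU T y * (if |x - y| ≤ 1 / Real.log T then (1 : ℝ) else 0) := by
    refine single_le_sum (f := fun y => wU T y * (if |x - y| ≤ 1 / Real.log T then (1 : ℝ) else 0))
      (fun y _ => ?_) hx
    have := wU_nonneg T y
    split_ifs <;> simp [this]
  refine le_trans (le_of_eq ?_) h2
  rw [sub_self, abs_zero, if_pos (by positivity), mul_one]

lemma mu_low : ∃ c T0 : ℝ, 0 < c ∧ 10 ≤ T0 ∧ ∀ T : ℝ, T0 ≤ T →
    c * (T * Real.log T) ≤ ∑ s ∈ ZZ T, mu s := by
  obtain ⟨C, T0, hC, hT0, h⟩ := H370.nn_asymp H370.good_zeta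
  have hpi4 := Real.pi_lt_four
  have hpi3 := Real.pi_gt_three
  obtain ⟨T2, hT2⟩ := (Filter.tendsto_atTop.mp Real.tendsto_log_atTop (20 * C)).exists_forall_of_atTop
  refine ⟨1 / 80, max (2 * T0) (max (2 * T2) 16), by norm_num, ?_, fun T hT => ?_⟩
  · have := le_max_left (2 * T0) (max (2 * T2) 16)
    linarith
  have g1 : 2 * T0 ≤ T := (le_max_left _ _).trans hT
  have g2 : 2 * T2 ≤ T := ((le_max_left _ _).trans (le_max_right _ _)).trans hT
  have g3 : 16 ≤ T := ((le_max_right _ _).trans (le_max_right _ _)).trans hT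
  have h1 := h (T / 2) (by linarith) (T / 2) T le_rfl (by linarith) (by linarith) (by linarith)
  have h2 := (abs_le.mp h1).1
  have hl := hT2 (T / 2) (by linarith)
  have h3 : (NN riemannZeta (T / 2) T : ℝ) ≤ ∑ s ∈ ZZ T, mu s := by
    rw [split (a := T / 2) (b := T) (by linarith) (by linarith), NN_eq good_zeta (by linarith),
      Nat.cast_sum]
    have h4 : 0 ≤ ∑ s ∈ ZZ (T / 2), mu s := sum_nonneg fun s _ => mu_nonneg s
    have h5 : ∑ s ∈ Zf riemannZeta (T / 2) T, mu s =
        ∑ s ∈ Zf riemannZeta (T / 2) T, (mult riemannZeta s : ℝ) := rfl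
    linarith
  have hlog : Real.log T ≤ 2 * Real.log (T / 2) := by
    have : Real.log (T / 2) + Real.log 2 = Real.log T := by
      rw [← Real.log_mul (by positivity) (by norm_num)]; congr 1; ring
    have h6 : Real.log 2 ≤ Real.log (T / 2) := Real.log_le_log (by norm_num) (by linarith)
    linarith
  have hl0 : 0 < Real.log (T / 2) := Real.log_pos (by linarith)
  have h7 : T / 2 * Real.log (T / 2) / 8 ≤ T / 2 * Real.log (T / 2) / (2 * Real.pi) := by
    apply div_le_div_of_nonneg_left (by positivity) (by positivity) (by linarith)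
  have h8 : C * (T / 2) ≤ T / 2 * Real.log (T / 2) / 20 := by nlinarith
  have h9 : 1 / 80 * (T * Real.log T) ≤ T / 2 * Real.log (T / 2) / 8 -
      T / 2 * Real.log (T / 2) / 20 := by nlinarith
  linarith

/-- unit intervals -/
lemma unit_le : ∃ C : ℝ, 1 ≤ C ∧ ∀ T : ℝ, 3 ≤ T → ∀ k : ℤ,
    (((Gam T).filter (fun x => ⌊x⌋ = k)).card : ℝ) ≤ C * Real.log T := by
  classical
  obtain ⟨C, hC, hz⟩ := H370.zcount H370.good_zeta
  refine ⟨C + (ZZ 4).card + 1, by have : (0 : ℝ) ≤ (ZZ 4).card := Nat.cast_nonneg _; linarith, ?_⟩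
  intro T hT k
  have hlT : 1 ≤ Real.log T := by
    rw [Real.le_log_iff_exp_le (by linarith)]
    have := Real.exp_one_lt_d9
    linarith
  have h4 : (0 : ℝ) ≤ (ZZ 4).card := Nat.cast_nonneg _
  rcases le_or_gt k 3 with hk | hk
  · have h1 : (((Gam T).filter (fun x => ⌊x⌋ = k)).card : ℝ) ≤ (ZZ 4).card := by
      norm_cast
      have h2 : (Gam T).filter (fun x => ⌊x⌋ = k) ⊆ (ZZ 4).image (fun s => s.im) := by
        intro x hx
        rw [mem_filter] at hx
        obtain ⟨z, hz1, hzx⟩ := mem_Gam.1 hx.1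
        rw [mem_image]
        refine ⟨z, ?_, hzx⟩
        rw [mem_ZZ] at hz1 ⊢
        refine ⟨hz1.1, hz1.2.1, hz1.2.2.1, ?_, hz1.2.2.2.2⟩
        rw [hzx]
        have h3 := Int.lt_floor_add_one x
        rw [hx.2] at h3
        have h5 : (k : ℝ) ≤ 3 := by exact_mod_cast hk
        linarith
      exact (card_le_card h2).trans card_image_le
    nlinarith
  · by_cases hne : ((Gam T).filter (fun x => ⌊x⌋ = k)).Nonempty
    · obtain ⟨x0, hx0⟩ := hne
      rw [mem_filter] at hx0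
      have hx0T := (Gam_pos hx0.1).2
      have hkT : (k : ℝ) ≤ T := by
        have := Int.floor_le x0
        rw [hx0.2] at this
        linarith
      have hk3 : (3 : ℝ) ≤ k := by exact_mod_cast hk.le
      have h1 := hz k hk3
      have hk1 : (1 : ℝ) ≤ (k : ℝ) - 1 := by linarith
      rw [NN_eq good_zeta hk1, Nat.cast_sum] at h1
      have hk4 : (4 : ℝ) ≤ k := by exact_mod_cast hk
      have h2 : (((Gam T).filter (fun x => ⌊x⌋ = k)).card : ℝ) ≤
          ∑ s ∈ Zf riemannZeta ((k : ℝ) - 1) (k + 1), (mult riemannZeta s : ℝ) := by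
        have h3 : (Gam T).filter (fun x => ⌊x⌋ = k) ⊆
            (Zf riemannZeta ((k : ℝ) - 1) (k + 1)).image (fun s => s.im) := by
          intro x hx
          rw [mem_filter] at hx
          obtain ⟨z, hz1, hzx⟩ := mem_Gam.1 hx.1
          rw [mem_image]
          refine ⟨z, ?_, hzx⟩
          rw [mem_ZZ] at hz1
          rw [mem_Zf good_zeta hk1]
          have a1 := Int.floor_le x
          have a2 := Int.lt_floor_add_one x
          rw [hx.2] at a1 a2
          refine ⟨hz1.1, hz1.2.1, ?_, ?_, hz1.2.2.2.2⟩ <;> rw [hzx] <;> linarith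
        have h5 : (((Gam T).filter (fun x => ⌊x⌋ = k)).card : ℝ) ≤
            ((Zf riemannZeta ((k : ℝ) - 1) (k + 1)).card : ℝ) := by
          exact_mod_cast (card_le_card h3).trans card_image_le
        refine h5.trans ?_
        have h6 : ((Zf riemannZeta ((k : ℝ) - 1) (k + 1)).card : ℝ) =
            ∑ s ∈ Zf riemannZeta ((k : ℝ) - 1) (k + 1), (1 : ℝ) := by simp
        rw [h6]
        refine sum_le_sum fun s hs => ?_
        rw [mem_Zf good_zeta hk1] at hs
        have : 1 ≤ mult riemannZeta s :=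
          H370.Loc.mult_pos' good_zeta (s := s) (by linarith [hs.2.2.1]) hs.2.2.2.2
        exact_mod_cast this
      have h7 : Real.log k ≤ Real.log T := Real.log_le_log (by linarith) hkT
      have h8 : C * Real.log k ≤ C * Real.log T := by gcongr
      have h9 : (0 : ℝ) ≤ ((ZZ 4).card + 1) * Real.log T := by positivity
      linarith
    · rw [not_nonempty_iff_eq_empty] at hne
      rw [hne]
      simp only [card_empty, Nat.cast_zero]
      positivity

theorem dat : ∃ C T0 : ℝ, 1 ≤ C ∧ 4 ≤ T0 ∧ ∀ T : ℝ, T0 ≤ T → Dat (Gam T) T (Real.log T) C := by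
  classical
  obtain ⟨Ca, hCa, ha⟩ := u1
  obtain ⟨P, T3, hP, hT3, h3⟩ := u3
  obtain ⟨c, T4, hc, hT4, h4⟩ := mu_low
  obtain ⟨Cu, hCu, hu⟩ := unit_le
  obtain ⟨S, hS⟩ : ∃ S : ℝ, S = ∑' d : ℤ, 1 / (1 + (d : ℝ) ^ 2) := ⟨_, rfl⟩
  have hS0 : 0 ≤ S := by rw [hS]; exact tsum_nonneg fun d => by positivity
  obtain ⟨C, hC⟩ : ∃ C : ℝ, C = Ca + 3 * S * P + P / c ^ 2 + 2 * Cu := ⟨_, rfl⟩
  have p1 : 0 ≤ 3 * S * P := by positivity
  have p2 : 0 ≤ P / c ^ 2 := by positivity
  refine ⟨C, max T3 T4, by rw [hC]; linarith, ?_, fun T hT => ?_⟩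
  · have := le_max_left T3 T4
    linarith
  have g3 : T3 ≤ T := (le_max_left _ _).trans hT
  have g4 : T4 ≤ T := (le_max_right _ _).trans hT
  have hT10 : 10 ≤ T := by linarith
  have hT0 : 0 < T := by linarith
  have hl1 : 1 ≤ Real.log T := by
    rw [Real.le_log_iff_exp_le (by linarith)]
    have := Real.exp_one_lt_d9
    linarith
  have hN0 : 0 < T * Real.log T := by positivity
  refine ⟨by rw [hC]; linarith, by linarith, hl1, fun x hx => Gam_pos hx, ?_, ?_, ?_, ?_⟩
  · refine (Gam_card_le T).trans ((ha T (by linarith)).trans ?_)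
    apply mul_le_mul_of_nonneg_right _ hN0.le
    rw [hC]; linarith
  · have k1 := h4 T g4
    have k2 : (∑ s ∈ ZZ T, mu s) ^ 2 ≤ (Gam T).card * (P * (T * Real.log T)) := by
      rw [← Gam_sum]
      have := sq_sum_le_card_mul_sum_sq (s := Gam T) (f := fun x => wU T x)
      refine this.trans ?_
      apply mul_le_mul_of_nonneg_left _ (Nat.cast_nonneg _)
      exact (wU_sq T (by linarith)).trans (h3 T g3)
    have k3 : (c * (T * Real.log T)) ^ 2 ≤ (∑ s ∈ ZZ T, mu s) ^ 2 :=
      pow_le_pow_left₀ (by positivity) k1 2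
    have k4 : T * Real.log T ≤ P / c ^ 2 * (Gam T).card := by
      rw [div_mul_eq_mul_div, le_div_iff₀ (by positivity)]
      have k5 : (T * Real.log T) * (T * Real.log T * c ^ 2) ≤
          (T * Real.log T) * (P * (Gam T).card) := by linarith
      exact le_of_mul_le_mul_left k5 hN0
    refine k4.trans ?_
    apply mul_le_mul_of_nonneg_right _ (Nat.cast_nonneg _)
    rw [hC]; linarith
  · have k1 := cell (Gam T) (Real.log T) (by linarith)
    rw [← hS] at k1
    have k2 : ∑ x ∈ Gam T, ∑ y ∈ Gam T,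
      (if |x - y| ≤ 1 / Real.log T then (1 : ℝ) else 0) ≤ P * (T * Real.log T) :=
      (Gam_pairs T).trans (h3 T g3)
    refine k1.trans ((mul_le_mul_of_nonneg_left k2 (by positivity)).trans ?_)
    rw [← mul_assoc]
    apply mul_le_mul_of_nonneg_right _ hN0.le
    rw [hC]; linarith
  · intro a h hh
    have k1 : (((Gam T).filter (fun x => a ≤ x ∧ x ≤ a + h)).card : ℝ) ≤
        ∑ k ∈ Finset.Icc ⌊a⌋ ⌊a + h⌋, Cu * Real.log T := by
      rw [card_eq_sum_card_fiberwise (f := fun x => ⌊x⌋) (t := Finset.Icc ⌊a⌋ ⌊a + h⌋)]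
      · push_cast
        refine sum_le_sum fun k _ => ?_
        refine le_trans ?_ (hu T (by linarith) k)
        norm_cast
        apply card_le_card
        intro x hx
        rw [mem_filter, mem_filter] at hx
        exact mem_filter.2 ⟨hx.1.1, hx.2⟩
      · intro x hx
        have hx' := (mem_filter.1 (mem_coe.1 hx)).2
        exact mem_coe.2 (Finset.mem_Icc.2 ⟨Int.floor_le_floor hx'.1, Int.floor_le_floor hx'.2⟩)
    rw [sum_const, nsmul_eq_mul, Int.card_Icc] at k1
    have k2 : ((⌊a + h⌋ + 1 - ⌊a⌋).toNat : ℝ) ≤ h + 2 := by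
      have k3 : ((⌊a + h⌋ + 1 - ⌊a⌋).toNat : ℝ) = ((⌊a + h⌋ + 1 - ⌊a⌋ : ℤ) : ℝ) := by
        have : 0 ≤ ⌊a + h⌋ + 1 - ⌊a⌋ := by
          have := Int.floor_le_floor (show a ≤ a + h by linarith)
          linarith
        exact_mod_cast Int.toNat_of_nonneg this
      rw [k3]
      push_cast
      have := Int.floor_le (a + h)
      have := Int.lt_floor_add_one a
      linarith
    refine k1.trans ?_
    have k4 : ((⌊a + h⌋ + 1 - ⌊a⌋).toNat : ℝ) * (Cu * Real.log T) ≤ (h + 2) * (Cu * Real.log T) := by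
      gcongr
    refine k4.trans ?_
    have k5 : 2 * Cu ≤ C := by
      rw [hC]; linarith
    calc (h + 2) * (Cu * Real.log T) ≤ (2 * (h + 1)) * (Cu * Real.log T) := by
          apply mul_le_mul_of_nonneg_right _ (by positivity); linarith
      _ = 2 * Cu * (h + 1) * Real.log T := by ring
      _ ≤ C * (h + 1) * Real.log T := by gcongr

end Pool.Agent.L7h52.AR
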